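import Pool.Agent.OrientedForcing.DenseReal

/-!
# Almost all graphs

Counting pairs (graph, direction for every pair of vertices).
-/

namespace OrientedForcing

open Classical

variable {V : Type} [Fintype V]

/-- All non-diagonal pairs. -/
noncomputable def allPairs (V : Type) [Fintype V] : Finset (Sym2 V) :=
  Finset.univ.filter (fun z => ¬ z.IsDiag)

/-- The direction forced on the pair `z` by the certificate `(τ, p)`. -/
def bit (τ : V → ℕ) (p : V → V) (z : Sym2 V) : Prop :=
  ∃ w x, τ w ≠ 0 ∧ τ w ≤ τ x ∧ z = s(p w, x) ∧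
    (Fintype.equivFin V (p w) < Fintype.equivFin V x ↔ p x = p w)

lemma edges_subset (G : SimpleGraph V) : edges G ⊆ allPairs V := by
  intro z hz
  simp only [edges, allPairs, Finset.mem_filter, Finset.mem_univ, true_and] at hz ⊢
  exact G.not_isDiag_of_mem_edgeSet hz

lemma edges_injective : Function.Injective (edges : SimpleGraph V → Finset (Sym2 V)) := by
  intro G H h
  rw [← SimpleGraph.edgeSet_inj]
  ext z
  have := Finset.ext_iff.mp h z
  simpa [edges] using this

lemma compat_bit {G : SimpleGraph V} {k s : ℕ} {b : Finset (Sym2 V)}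
    {c : (V → Fin (Fintype.card V)) × (V → V)} (h : Compat G k s b c)
    {z : Sym2 V} (hz : z ∈ det (fun w => (c.1 w : ℕ)) c.2) (hzE : z ∈ edges G) :
    z ∈ b ↔ bit (fun w => (c.1 w : ℕ)) c.2 z := by
  obtain ⟨S, _, hC⟩ := h
  have hzE' : z ∈ G.edgeSet := by simpa [edges] using hzE
  have key : ∀ w x, (c.1 w : ℕ) ≠ 0 → (c.1 w : ℕ) ≤ (c.1 x : ℕ) → z = s(c.2 w, x) →
      ((Fintype.equivFin V (c.2 w) < Fintype.equivFin V x ↔ z ∈ b) ↔ c.2 x = c.2 w) := by
    intro w x hw hwx hzz
    have hadj : G.Adj (c.2 w) x := by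
      rw [hzz, SimpleGraph.mem_edgeSet] at hzE'
      exact hzE'
    have hxn : (c.1 x : ℕ) ≠ 0 := by omega
    have h1 : orient G b (c.2 w) x ↔ c.2 x = c.2 w := by
      constructor
      · intro hD
        exact hC.only w x hw hwx hD
      · intro heq
        have := (hC.force x hxn).2
        rwa [heq] at this
    simp only [orient, hadj, true_and] at h1
    rw [hzz]
    exact h1
  constructor
  · intro hb
    rw [det, Finset.mem_image] at hz
    obtain ⟨⟨w, x⟩, hwx, hzz⟩ := hz
    have hwx' : (c.1 w : ℕ) ≠ 0 ∧ (c.1 w : ℕ) ≤ (c.1 x : ℕ) := by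
      have := hwx
      simp only [pairs, Finset.mem_filter, Finset.mem_univ, true_and] at this
      exact this
    refine ⟨w, x, hwx'.1, hwx'.2, hzz.symm, ?_⟩
    have := key w x hwx'.1 hwx'.2 hzz.symm
    tauto
  · rintro ⟨w, x, hw, hwx, hzz, hbit⟩
    have := key w x hw hwx hzz
    tauto

lemma card_b_le {G : SimpleGraph V} {k s : ℕ} (c : (V → Fin (Fintype.card V)) × (V → V)) :
    (((allPairs V).powerset).filter (fun b => Compat G k s b c)).card ≤
      2 ^ ((allPairs V).card - (edges G ∩ det (fun w => (c.1 w : ℕ)) c.2).card) := by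
  set I := edges G ∩ det (fun w => (c.1 w : ℕ)) c.2 with hI
  have hIP : I ⊆ allPairs V := Finset.inter_subset_left.trans (edges_subset G)
  have h1 : (((allPairs V).powerset).filter (fun b => Compat G k s b c)).card ≤
      ((allPairs V \ I).powerset).card := by
    apply Finset.card_le_card_of_injOn (fun b => b \ I)
    · intro b hb
      have hb' := (Finset.mem_filter.mp hb).1
      rw [Finset.mem_powerset] at hb'
      simp only [Finset.coe_powerset, Set.mem_preimage, Set.mem_powerset_iff, Finset.coe_subset]
      exact Finset.sdiff_subset_sdiff hb' subset_rfl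
    · intro b hb b' hb' heq
      have h6 := Finset.mem_filter.mp hb
      have h7 := Finset.mem_filter.mp hb'
      have heq' : b \ I = b' \ I := heq
      ext z
      by_cases hz : z ∈ I
      · have hz' := Finset.mem_inter.mp hz
        rw [compat_bit h6.2 hz'.2 hz'.1, compat_bit h7.2 hz'.2 hz'.1]
      · have := Finset.ext_iff.mp heq' z
        simpa [Finset.mem_sdiff, hz] using this
  rw [Finset.card_powerset, Finset.card_sdiff_of_subset hIP] at h1
  exact h1

lemma sum_bound (D : Finset (Sym2 V)) (hD : D ⊆ allPairs V) :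
    ∑ G : SimpleGraph V, (2 : ℝ) ^ ((allPairs V).card - (edges G ∩ D).card) ≤
      4 ^ (allPairs V).card * (3 / 4 : ℝ) ^ D.card := by
  set P := allPairs V with hP
  have h1 : ∑ G : SimpleGraph V, (2 : ℝ) ^ (P.card - (edges G ∩ D).card) ≤
      ∑ E ∈ P.powerset, (2 : ℝ) ^ (P.card - (E ∩ D).card) := by
    rw [← Finset.sum_image (f := fun E => (2 : ℝ) ^ (P.card - (E ∩ D).card))
      (s := (Finset.univ : Finset (SimpleGraph V))) (g := edges)
      (fun a _ b _ h => edges_injective h)]
    apply Finset.sum_le_sum_of_subset_of_nonneg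
    · intro E hE
      rw [Finset.mem_image] at hE
      obtain ⟨G, _, rfl⟩ := hE
      exact Finset.mem_powerset.mpr (edges_subset G)
    · intros; positivity
  refine h1.trans (le_of_eq ?_)
  have h2 : ∀ E ∈ P.powerset, (2 : ℝ) ^ (P.card - (E ∩ D).card) =
      2 ^ P.card * ∏ z ∈ E, (if z ∈ D then (1 / 2 : ℝ) else 1) := by
    intro E hE
    rw [Finset.mem_powerset] at hE
    rw [Finset.prod_ite, Finset.prod_const, Finset.prod_const_one, mul_one,
      Finset.filter_mem_eq_inter]
    have hle : (E ∩ D).card ≤ P.card := Finset.card_le_card (Finset.inter_subset_left.trans hE)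
    rw [pow_sub₀ _ (by norm_num) hle, one_div, inv_pow]
  rw [Finset.sum_congr rfl h2, ← Finset.mul_sum, ← Finset.prod_one_add]
  have h3 : ∏ z ∈ P, (1 + (if z ∈ D then (1 / 2 : ℝ) else 1)) =
      (3 / 2) ^ D.card * 2 ^ (P.card - D.card) := by
    have h4 : ∀ z ∈ P, (1 + (if z ∈ D then (1 / 2 : ℝ) else 1)) =
        if z ∈ D then (3 / 2 : ℝ) else 2 := by
      intro z _
      split_ifs <;> norm_num
    rw [Finset.prod_congr rfl h4, Finset.prod_ite, Finset.prod_const, Finset.prod_const,
      Finset.filter_mem_eq_inter, Finset.inter_eq_right.mpr hD]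
    congr 2
    rw [← Finset.card_sdiff_of_subset hD]
    congr 1
    ext z
    simp
  rw [h3]
  have hle : D.card ≤ P.card := Finset.card_le_card hD
  rw [pow_sub₀ _ (by norm_num) hle]
  have h5 : (4 : ℝ) ^ P.card = 2 ^ P.card * 2 ^ P.card := by
    rw [← mul_pow]; norm_num
  have h6 : (3 / 4 : ℝ) ^ D.card = (3 / 2) ^ D.card * (2 ^ D.card)⁻¹ := by
    rw [← inv_pow, ← mul_pow]; norm_num
  rw [h5, h6]
  ring

/-- The number of graphs with `MOF_k(G) ≤ s` is at most `2^N n^(2n) (3/4)^d`, where `N` is the
number of pairs and `2 k d ≤ (n - s)(n - s + 1)`. -/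
theorem bad_card [Nonempty V] {k s d : ℕ} (hk : 1 ≤ k)
    (hd : 2 * k * d ≤ (Fintype.card V - s) * (Fintype.card V - s + 1)) :
    (((Finset.univ : Finset (SimpleGraph V)).filter (fun G => ¬ s + 1 ≤ MOF G k)).card : ℝ) ≤
      2 ^ (allPairs V).card * ((Fintype.card V : ℝ) ^ (2 * Fintype.card V) * (3 / 4) ^ d) := by
  set P := allPairs V with hP
  set Bad := (Finset.univ : Finset (SimpleGraph V)).filter (fun G => ¬ s + 1 ≤ MOF G k) with hBad
  have hall : ∀ G ∈ Bad, ∀ b ∈ P.powerset, ∃ c : (V → Fin (Fintype.card V)) × (V → V),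
      Compat G k s b c := by
    intro G hG b _
    rw [hBad, Finset.mem_filter] at hG
    by_contra hno
    apply hG.2
    apply le_MOF (orient_isOrientation G b)
    intro S hS
    by_contra hlt
    apply hno
    have hne : S.Nonempty := by
      rw [Finset.nonempty_iff_ne_empty]
      rintro rfl
      obtain ⟨i, hi⟩ := hS
      have hemp : ∀ j, (step (orient G b) k)^[j] ∅ = ∅ := by
        intro j
        induction j with
        | zero => rfl
        | succ j ih =>
          rw [Function.iterate_succ_apply', ih]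
          simp [step]
      rw [hemp i] at hi
      obtain ⟨v⟩ := ‹Nonempty V›
      have := Finset.mem_univ v
      rw [← hi] at this
      simp at this
    obtain ⟨τ, p, hC⟩ := exists_small_cert hS hne
    exact ⟨(τ, p), S, by omega, hC⟩
  have hone : ∀ G ∈ Bad, ((2 : ℝ) ^ P.card) ≤
      ∑ c : (V → Fin (Fintype.card V)) × (V → V),
        ((P.powerset.filter (fun b => Compat G k s b c)).card : ℝ) := by
    intro G hG
    have hcover : P.powerset ⊆
        (Finset.univ : Finset ((V → Fin (Fintype.card V)) × (V → V))).biUnion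
          (fun c => P.powerset.filter (fun b => Compat G k s b c)) := by
      intro b hb
      obtain ⟨c, hc⟩ := hall G hG b hb
      rw [Finset.mem_biUnion]
      exact ⟨c, Finset.mem_univ _, Finset.mem_filter.mpr ⟨hb, hc⟩⟩
    have h1 := (Finset.card_le_card hcover).trans Finset.card_biUnion_le
    rw [Finset.card_powerset] at h1
    exact_mod_cast h1
  have hc : ∀ c : (V → Fin (Fintype.card V)) × (V → V),
      ∑ G ∈ Bad, ((P.powerset.filter (fun b => Compat G k s b c)).card : ℝ) ≤
        4 ^ P.card * (3 / 4 : ℝ) ^ d := by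
    intro c
    by_cases hex : ∃ G ∈ Bad, ∃ b, Compat G k s b c
    · obtain ⟨G₀, _, b₀, S, hSs, hC⟩ := hex
      set τ : V → ℕ := fun w => (c.1 w : ℕ) with hτ
      set Dt := det τ c.2 with hDt
      have hfilter : Finset.univ.filter (fun w => τ w ≠ 0) = Finset.univ \ S := by
        ext w
        have := hC.zero w
        simp only [Finset.mem_filter, Finset.mem_univ, true_and, Finset.mem_sdiff]
        exact not_congr this
      have hm : Fintype.card V - s ≤ (Finset.univ.filter (fun w => τ w ≠ 0)).card := by
        rw [hfilter, Finset.card_univ_sdiff]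
        omega
      have h1 := pairs_card τ _ hm
      have h2 : (pairs τ).card ≤ k * Dt.card :=
        det_card (fun w hw => (hC.force w hw).1) hC.fiber
      have h3 : d ≤ Dt.card := by
        have : 2 * k * d ≤ 2 * k * Dt.card := by
          calc 2 * k * d ≤ 2 * (pairs τ).card := hd.trans h1
            _ ≤ 2 * (k * Dt.card) := by gcongr
            _ = 2 * k * Dt.card := by ring
        exact Nat.le_of_mul_le_mul_left this (by omega)
      have hDsub : Dt ⊆ P := by
        intro z hz
        rw [hDt, det, Finset.mem_image] at hz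
        obtain ⟨⟨w, x⟩, hwx, rfl⟩ := hz
        have hwx' : τ w ≠ 0 ∧ τ w ≤ τ x := by
          simp only [pairs, Finset.mem_filter, Finset.mem_univ, true_and] at hwx
          exact hwx
        simp only [hP, allPairs, Finset.mem_filter, Finset.mem_univ, true_and]
        intro heq
        have heq' : c.2 w = x := by simpa using heq
        have := (hC.force w hwx'.1).1
        rw [heq'] at this
        have h5 : τ x < τ w := this
        omega
      calc ∑ G ∈ Bad, ((P.powerset.filter (fun b => Compat G k s b c)).card : ℝ)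
          ≤ ∑ G ∈ Bad, (2 : ℝ) ^ (P.card - (edges G ∩ Dt).card) := by
            apply Finset.sum_le_sum
            intro G _
            have := card_b_le (G := G) (k := k) (s := s) c
            exact_mod_cast this
        _ ≤ ∑ G : SimpleGraph V, (2 : ℝ) ^ (P.card - (edges G ∩ Dt).card) := by
            apply Finset.sum_le_sum_of_subset_of_nonneg (Finset.subset_univ _)
            intros; positivity
        _ ≤ 4 ^ P.card * (3 / 4 : ℝ) ^ Dt.card := sum_bound Dt hDsub
        _ ≤ 4 ^ P.card * (3 / 4 : ℝ) ^ d := by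
            gcongr ?_ * ?_
            exact pow_le_pow_of_le_one (by norm_num) (by norm_num) h3
    · push Not at hex
      have : ∑ G ∈ Bad, ((P.powerset.filter (fun b => Compat G k s b c)).card : ℝ) = 0 := by
        apply Finset.sum_eq_zero
        intro G hG
        have : P.powerset.filter (fun b => Compat G k s b c) = ∅ := by
          rw [Finset.filter_eq_empty_iff]
          intro b _
          exact hex G hG b
        rw [this]; simp
      rw [this]; positivity
  have htot : (Bad.card : ℝ) * 2 ^ P.card ≤
      (Fintype.card V : ℝ) ^ (2 * Fintype.card V) * (4 ^ P.card * (3 / 4 : ℝ) ^ d) := by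
    calc (Bad.card : ℝ) * 2 ^ P.card = ∑ _G ∈ Bad, (2 : ℝ) ^ P.card := by
          rw [Finset.sum_const, nsmul_eq_mul]
      _ ≤ ∑ G ∈ Bad, ∑ c : (V → Fin (Fintype.card V)) × (V → V),
          ((P.powerset.filter (fun b => Compat G k s b c)).card : ℝ) :=
          Finset.sum_le_sum hone
      _ = ∑ c : (V → Fin (Fintype.card V)) × (V → V), ∑ G ∈ Bad,
          ((P.powerset.filter (fun b => Compat G k s b c)).card : ℝ) := Finset.sum_comm
      _ ≤ ∑ _c : (V → Fin (Fintype.card V)) × (V → V), 4 ^ P.card * (3 / 4 : ℝ) ^ d :=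
          Finset.sum_le_sum (fun c _ => hc c)
      _ = _ := by
          rw [Finset.sum_const, nsmul_eq_mul, Finset.card_univ, Fintype.card_prod,
            Fintype.card_fun, Fintype.card_fun, Fintype.card_fin, ← pow_add]
          push_cast
          congr 2
          ring
  have h4 : (4 : ℝ) ^ P.card = 2 ^ P.card * 2 ^ P.card := by
    rw [← mul_pow]; norm_num
  rw [h4] at htot
  have h5 : (0 : ℝ) < 2 ^ P.card := by positivity
  have h6 : (Bad.card : ℝ) * 2 ^ P.card ≤
      (2 ^ P.card * ((Fintype.card V : ℝ) ^ (2 * Fintype.card V) * (3 / 4) ^ d)) * 2 ^ P.card := by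
    calc _ ≤ _ := htot
      _ = _ := by ring
  exact le_of_mul_le_mul_right h6 h5

end OrientedForcing
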