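import Mathlib

/-!
# Maximum oriented `k`-forcing number: definitions and the comparability-graph engine
-/

namespace OrientedForcing

open Classical

variable {V : Type} [Fintype V]

/-- `D` is an orientation of `G`: every edge is replaced by exactly one of its two arcs. -/
def IsOrientation (G : SimpleGraph V) (D : V → V → Prop) : Prop :=
  (∀ u v, G.Adj u v ↔ (D u v ∨ D v u)) ∧ ∀ u v, ¬ (D u v ∧ D v u)

/-- The out-neighbours of `u` that are not in the coloured set `P`. -/
noncomputable def missing (D : V → V → Prop) (P : Finset V) (u : V) : Finset V :=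
  Finset.univ.filter (fun w => D u w ∧ w ∉ P)

/-- One round of the `k`-colour change rule: every coloured vertex with at most `k` non-coloured
out-neighbours colours all of them. -/
noncomputable def step (D : V → V → Prop) (k : ℕ) (P : Finset V) : Finset V :=
  P ∪ Finset.univ.filter (fun w => ∃ u ∈ P, D u w ∧ (missing D P u).card ≤ k)

/-- `S` is a `k`-forcing set: repeating the rule from `S` colours every vertex. -/
def IsForcing (D : V → V → Prop) (k : ℕ) (S : Finset V) : Prop :=
  ∃ i : ℕ, (step D k)^[i] S = Finset.univ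

/-- `F_k(D)`, the least size of a nonempty `k`-forcing set. -/
noncomputable def forcingNumber (D : V → V → Prop) (k : ℕ) : ℕ :=
  sInf {m | ∃ S : Finset V, S.Nonempty ∧ IsForcing D k S ∧ S.card = m}

/-- `MOF_k(G)`, the maximum of `F_k(D)` over all orientations `D` of `G`. -/
noncomputable def MOF (G : SimpleGraph V) (k : ℕ) : ℕ :=
  sSup {m | ∃ D : V → V → Prop, IsOrientation G D ∧ forcingNumber D k = m}

/-- The subgraph of `G` induced by the vertex set `W` is a comparability graph: there is a
(strict) partial order whose comparable pairs inside `W` are exactly the edges inside `W`. -/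
def InducesComparability (G : SimpleGraph V) (W : Finset V) : Prop :=
  ∃ P : PartialOrder V, ∀ u ∈ W, ∀ v ∈ W, (G.Adj u v ↔ (P.lt u v ∨ P.lt v u))

lemma forcing_univ (D : V → V → Prop) (k : ℕ) : IsForcing D k Finset.univ := ⟨0, rfl⟩

lemma forcingNumber_le_card [Nonempty V] (D : V → V → Prop) (k : ℕ) :
    forcingNumber D k ≤ Fintype.card V :=
  Nat.sInf_le ⟨Finset.univ, Finset.univ_nonempty, forcing_univ D k, Finset.card_univ⟩

lemma le_MOF [Nonempty V] {G : SimpleGraph V} {D : V → V → Prop} {k m : ℕ}
    (hD : IsOrientation G D) (h : ∀ S : Finset V, IsForcing D k S → m ≤ S.card) :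
    m ≤ MOF G k := by
  have h1 : m ≤ forcingNumber D k := by
    apply le_csInf
    · exact ⟨_, Finset.univ, Finset.univ_nonempty, forcing_univ D k, rfl⟩
    · rintro b ⟨S, -, hS, rfl⟩
      exact h S hS
  refine h1.trans (le_csSup ?_ ⟨D, hD, rfl⟩)
  refine ⟨Fintype.card V, ?_⟩
  rintro b ⟨D', -, rfl⟩
  exact forcingNumber_le_card D' k

/-- The data used by the engine: `D` is transitive inside `W` and no arc enters `W` from
outside. -/
structure Good (D : V → V → Prop) (W : Finset V) : Prop where
  trans : ∀ u ∈ W, ∀ v ∈ W, ∀ w ∈ W, D u v → D v w → D u w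
  closed : ∀ u v, D u v → v ∈ W → u ∈ W

lemma subset_step (D : V → V → Prop) (k : ℕ) (P : Finset V) : P ⊆ step D k P :=
  Finset.subset_union_left

/-- Coloured vertices of `W` outside `S` have all their out-neighbours inside `W` coloured. -/
lemma inv_a {D : V → V → Prop} {W : Finset V} (hg : Good D W) (k : ℕ) (S : Finset V) (i : ℕ) :
    ∀ w ∈ (step D k)^[i] S, w ∈ W → w ∉ S → ∀ x ∈ W, D w x → x ∈ (step D k)^[i] S := by
  induction i with
  | zero => intro w hw _ hS; exact absurd hw hS
  | succ i ih =>
    intro w hw hwW hwS x hxW hwx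
    rw [Function.iterate_succ_apply'] at hw ⊢
    set P := (step D k)^[i] S with hP
    by_cases hwP : w ∈ P
    · exact subset_step D k P (ih w hwP hwW hwS x hxW hwx)
    · rw [step, Finset.mem_union] at hw
      rcases hw with hw | hw
      · exact absurd hw hwP
      · rw [Finset.mem_filter] at hw
        obtain ⟨-, u, huP, huw, hcard⟩ := hw
        have huW : u ∈ W := hg.closed u w huw hwW
        have hux : D u x := hg.trans u huW w hwW x hxW huw hwx
        rw [step, Finset.mem_union, Finset.mem_filter]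
        exact Or.inr ⟨Finset.mem_univ _, u, huP, hux, hcard⟩

/-- A newly coloured vertex of `W` is coloured by a vertex of `S ∩ W`. -/
lemma new_forcer {D : V → V → Prop} {W : Finset V} (hg : Good D W) (k : ℕ) (S : Finset V)
    (i : ℕ) {w : V} (hw : w ∈ (step D k)^[i+1] S) (hn : w ∉ (step D k)^[i] S) (hwW : w ∈ W) :
    ∃ u ∈ S, u ∈ W ∧ D u w ∧ (missing D ((step D k)^[i] S) u).card ≤ k := by
  rw [Function.iterate_succ_apply'] at hw
  set P := (step D k)^[i] S with hP
  rw [step, Finset.mem_union] at hw
  rcases hw with hw | hw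
  · exact absurd hw hn
  · rw [Finset.mem_filter] at hw
    obtain ⟨-, u, huP, huw, hcard⟩ := hw
    have huW : u ∈ W := hg.closed u w huw hwW
    refine ⟨u, ?_, huW, huw, hcard⟩
    by_contra huS
    exact hn (inv_a hg k S i u huP huW huS w hwW huw)

/-- The vertices of `S ∩ W` all of whose out-neighbours in `W` are coloured. -/
noncomputable def spent (D : V → V → Prop) (W S P : Finset V) : Finset V :=
  (S ∩ W).filter (fun u => ∀ x ∈ W, D u x → x ∈ P)

lemma count_inv {D : V → V → Prop} {W : Finset V} (hg : Good D W) (k : ℕ) (S : Finset V)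
    (i : ℕ) :
    ((step D k)^[i] S ∩ W).card ≤ (S ∩ W).card + k * (spent D W S ((step D k)^[i] S)).card := by
  induction i with
  | zero => simp
  | succ i ih =>
    set P := (step D k)^[i] S with hP
    have hPs : (step D k)^[i+1] S = step D k P := by rw [Function.iterate_succ_apply']
    set Q := (step D k)^[i+1] S with hQ
    have hPQ : P ⊆ Q := by rw [hPs]; exact subset_step D k P
    have hsub : spent D W S P ⊆ spent D W S Q := by
      intro u hu
      simp only [spent, Finset.mem_filter] at hu ⊢
      exact ⟨hu.1, fun x hx hux => hPQ (hu.2 x hx hux)⟩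
    set N := (spent D W S Q \ spent D W S P).filter (fun u => (missing D P u).card ≤ k) with hN
    have hcover : Q ∩ W ⊆ (P ∩ W) ∪ N.biUnion (fun u => missing D P u) := by
      intro w hw
      rw [Finset.mem_inter] at hw
      by_cases hwP : w ∈ P
      · exact Finset.mem_union_left _ (Finset.mem_inter.mpr ⟨hwP, hw.2⟩)
      · apply Finset.mem_union_right
        obtain ⟨u, huS, huW, huw, hcard⟩ := new_forcer hg k S i hw.1 hwP hw.2
        rw [Finset.mem_biUnion]
        refine ⟨u, ?_, ?_⟩
        · rw [hN, Finset.mem_filter, Finset.mem_sdiff]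
          refine ⟨⟨?_, ?_⟩, hcard⟩
          · simp only [spent, Finset.mem_filter, Finset.mem_inter]
            refine ⟨⟨huS, huW⟩, fun x hxW hux => ?_⟩
            rw [hPs, step, Finset.mem_union, Finset.mem_filter]
            right
            refine ⟨Finset.mem_univ _, u, ?_, hux, hcard⟩
            have : ∀ j, S ⊆ (step D k)^[j] S := by
              intro j
              induction j with
              | zero => exact subset_rfl
              | succ j ihj =>
                rw [Function.iterate_succ_apply']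
                exact ihj.trans (subset_step D k _)
            exact this i huS
          · intro hmem
            simp only [spent, Finset.mem_filter] at hmem
            exact hwP (hmem.2 w hw.2 huw)
        · simp [missing, huw, hwP]
    have h1 : (Q ∩ W).card ≤ (P ∩ W).card + N.card * k := by
      refine (Finset.card_le_card hcover).trans ((Finset.card_union_le _ _).trans ?_)
      gcongr
      exact Finset.card_biUnion_le_card_mul _ _ _ (fun u hu => (Finset.mem_filter.mp hu).2)
    have h2 : N.card + (spent D W S P).card ≤ (spent D W S Q).card := by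
      have h3 : N.card ≤ (spent D W S Q \ spent D W S P).card :=
        Finset.card_le_card (Finset.filter_subset _ _)
      have h4 := Finset.card_sdiff_add_card_eq_card hsub
      omega
    calc (Q ∩ W).card ≤ (P ∩ W).card + N.card * k := h1
      _ ≤ (S ∩ W).card + k * (spent D W S P).card + N.card * k := by gcongr
      _ = (S ∩ W).card + k * (N.card + (spent D W S P).card) := by ring
      _ ≤ (S ∩ W).card + k * (spent D W S Q).card := by gcongr

lemma card_le_of_forcing {D : V → V → Prop} {W : Finset V} (hg : Good D W) (k : ℕ)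
    (S : Finset V) (h : IsForcing D k S) : W.card ≤ (k + 1) * S.card := by
  obtain ⟨i, hi⟩ := h
  have h1 := count_inv hg k S i
  rw [hi, Finset.univ_inter] at h1
  have h2 : (spent D W S Finset.univ).card ≤ (S ∩ W).card :=
    Finset.card_le_card (Finset.filter_subset _ _)
  have h3 : (S ∩ W).card ≤ S.card := Finset.card_le_card Finset.inter_subset_left
  calc W.card ≤ (S ∩ W).card + k * (spent D W S Finset.univ).card := h1
    _ ≤ S.card + k * S.card := add_le_add h3 (Nat.mul_le_mul_left k (h2.trans h3))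
    _ = (k + 1) * S.card := by ring

/-- Every graph has an orientation that is `Good` for a set inducing a comparability graph. -/
lemma exists_good (G : SimpleGraph V) (W : Finset V) (hW : InducesComparability G W) :
    ∃ D : V → V → Prop, IsOrientation G D ∧ Good D W := by
  obtain ⟨P, hP⟩ := hW
  let e := Fintype.equivFin V
  refine ⟨fun u v => G.Adj u v ∧ ((u ∈ W ∧ v ∈ W ∧ P.lt u v) ∨ (u ∈ W ∧ v ∉ W) ∨
    (u ∉ W ∧ v ∉ W ∧ e u < e v)), ⟨?_, ?_⟩, ?_, ?_⟩
  · intro u v
    constructor
    · intro h
      have h' := h.symm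
      have hne : e u ≠ e v := fun hh => h.ne (e.injective hh)
      by_cases hu : u ∈ W <;> by_cases hv : v ∈ W
      · rcases (hP u hu v hv).mp h with h1 | h1
        · exact Or.inl ⟨h, Or.inl ⟨hu, hv, h1⟩⟩
        · exact Or.inr ⟨h', Or.inl ⟨hv, hu, h1⟩⟩
      · exact Or.inl ⟨h, Or.inr (Or.inl ⟨hu, hv⟩)⟩
      · exact Or.inr ⟨h', Or.inr (Or.inl ⟨hv, hu⟩)⟩
      · rcases lt_or_gt_of_ne hne with h1 | h1
        · exact Or.inl ⟨h, Or.inr (Or.inr ⟨hu, hv, h1⟩)⟩
        · exact Or.inr ⟨h', Or.inr (Or.inr ⟨hv, hu, h1⟩)⟩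
    · rintro (h | h)
      · exact h.1
      · exact h.1.symm
  · rintro u v ⟨⟨-, h1⟩, ⟨-, h2⟩⟩
    rcases h1 with ⟨a, b, c⟩ | ⟨a, b⟩ | ⟨a, b, c⟩ <;>
      rcases h2 with ⟨a', b', c'⟩ | ⟨a', b'⟩ | ⟨a', b', c'⟩ <;> try contradiction
    · exact (@lt_asymm V P.toPreorder _ _ c) c'
    · exact lt_asymm c c'
  · rintro u hu v hv w hw ⟨-, h1⟩ ⟨-, h2⟩
    have h1' : P.lt u v := by
      rcases h1 with ⟨_, _, c⟩ | ⟨_, b⟩ | ⟨a, _, _⟩
      · exact c
      · exact absurd hv b
      · exact absurd hu a
    have h2' : P.lt v w := by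
      rcases h2 with ⟨_, _, c⟩ | ⟨_, b⟩ | ⟨a, _, _⟩
      · exact c
      · exact absurd hw b
      · exact absurd hv a
    have h3 : P.lt u w := @lt_trans V P.toPreorder _ _ _ h1' h2'
    exact ⟨(hP u hu w hw).mpr (Or.inl h3), Or.inl ⟨hu, hw, h3⟩⟩
  · rintro u v ⟨-, h1⟩ hv
    rcases h1 with ⟨a, _, _⟩ | ⟨a, _⟩ | ⟨_, b, _⟩
    · exact a
    · exact a
    · exact absurd hv b

/-- `MOF_k(G) ≥ |W| / (k + 1)` for every vertex set `W` inducing a comparability graph. -/
theorem card_le_MOF [Nonempty V] (G : SimpleGraph V) (W : Finset V)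
    (hW : InducesComparability G W) (k : ℕ) : W.card ≤ (k + 1) * MOF G k := by
  obtain ⟨D, hD, hg⟩ := exists_good G W hW
  have h : (W.card + k) / (k + 1) ≤ MOF G k := by
    apply le_MOF hD
    intro S hS
    have h1 := card_le_of_forcing hg k S hS
    rw [Nat.div_le_iff_le_mul_add_pred (Nat.succ_pos k)]
    calc W.card + k ≤ (k + 1) * S.card + k := by gcongr
      _ = _ := by simp
  have h2 : W.card + k < (k + 1) * ((W.card + k) / (k + 1) + 1) :=
    Nat.lt_mul_div_succ _ (Nat.succ_pos k)
  have h3 : (k + 1) * ((W.card + k) / (k + 1) + 1) ≤ (k + 1) * (MOF G k + 1) := by gcongr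
  have h4 : (k + 1) * (MOF G k + 1) = (k + 1) * MOF G k + (k + 1) := by ring
  omega

/-- `M` is a set of pairwise disjoint edges of `G` with all ends in `W` (each edge written once,
as an ordered pair). -/
def IsMatchingIn (G : SimpleGraph V) (W : Finset V) (M : Finset (V × V)) : Prop :=
  (∀ e ∈ M, G.Adj e.1 e.2 ∧ e.1 ∈ W ∧ e.2 ∈ W) ∧
  ∀ e ∈ M, ∀ e' ∈ M, e ≠ e' → e.1 ≠ e'.1 ∧ e.1 ≠ e'.2 ∧ e.2 ≠ e'.1 ∧ e.2 ≠ e'.2

/-- The matching number of the subgraph of `G` induced by `W`. -/
noncomputable def matchingNumber (G : SimpleGraph V) (W : Finset V) : ℕ :=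
  sSup {m | ∃ M : Finset (V × V), IsMatchingIn G W M ∧ M.card = m}

lemma subset_iterate (D : V → V → Prop) (k : ℕ) (S : Finset V) (j : ℕ) :
    S ⊆ (step D k)^[j] S := by
  induction j with
  | zero => exact subset_rfl
  | succ j ihj =>
    rw [Function.iterate_succ_apply']
    exact ihj.trans (subset_step D k _)

/-- For `k = 1` the forces inside `W` form a matching between `S ∩ W` and `W \ S`. -/
lemma match_inv {D : V → V → Prop} {W : Finset V} (hg : Good D W) (S : Finset V) (i : ℕ) :
    ∃ f : V → V, (∀ w ∈ (step D 1)^[i] S, w ∈ W → w ∉ S →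
        f w ∈ spent D W S ((step D 1)^[i] S) ∧ D (f w) w) ∧
      ∀ w ∈ (step D 1)^[i] S, w ∈ W → w ∉ S → ∀ w' ∈ (step D 1)^[i] S, w' ∈ W → w' ∉ S →
        f w = f w' → w = w' := by
  induction i with
  | zero =>
    refine ⟨id, ?_, ?_⟩
    · intro w hw _ hS; exact absurd hw hS
    · intro w hw _ hS; exact absurd hw hS
  | succ i ih =>
    obtain ⟨f, hf1, hf2⟩ := ih
    set P := (step D 1)^[i] S with hP
    have hPs : (step D 1)^[i+1] S = step D 1 P := by rw [Function.iterate_succ_apply']
    set Q := (step D 1)^[i+1] S with hQ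
    have hPQ : P ⊆ Q := by rw [hPs]; exact subset_step D 1 P
    have hsub : spent D W S P ⊆ spent D W S Q := by
      intro u hu
      simp only [spent, Finset.mem_filter] at hu ⊢
      exact ⟨hu.1, fun x hx hux => hPQ (hu.2 x hx hux)⟩
    have hnew : ∀ w, ∃ u, (w ∈ Q → w ∉ P → w ∈ W →
        u ∈ S ∧ u ∈ W ∧ D u w ∧ (missing D P u).card ≤ 1) := by
      intro w
      by_cases h : w ∈ Q ∧ w ∉ P ∧ w ∈ W
      · obtain ⟨u, hu⟩ := new_forcer hg 1 S i h.1 h.2.1 h.2.2
        exact ⟨u, fun _ _ _ => hu⟩
      · exact ⟨w, fun a b c => absurd ⟨a, b, c⟩ h⟩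
    choose g hg' using hnew
    have hgs : ∀ w ∈ Q, w ∉ P → w ∈ W → g w ∈ spent D W S Q ∧ g w ∉ spent D W S P := by
      intro w hwQ hwP hwW
      obtain ⟨h1, h2, h3, h4⟩ := hg' w hwQ hwP hwW
      constructor
      · simp only [spent, Finset.mem_filter, Finset.mem_inter]
        refine ⟨⟨h1, h2⟩, fun x _ hux => ?_⟩
        rw [hPs, step, Finset.mem_union, Finset.mem_filter]
        exact Or.inr ⟨Finset.mem_univ _, g w, subset_iterate D 1 S i h1, hux, h4⟩
      · intro hmem
        simp only [spent, Finset.mem_filter] at hmem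
        exact hwP (hmem.2 w hwW h3)
    refine ⟨fun w => if w ∈ P then f w else g w, ?_, ?_⟩
    · intro w hwQ hwW hwS
      by_cases hwP : w ∈ P
      · simp only [hwP, if_true]
        exact ⟨hsub (hf1 w hwP hwW hwS).1, (hf1 w hwP hwW hwS).2⟩
      · simp only [hwP, if_false]
        exact ⟨(hgs w hwQ hwP hwW).1, (hg' w hwQ hwP hwW).2.2.1⟩
    · intro w hwQ hwW hwS w' hwQ' hwW' hwS' heq
      by_cases hwP : w ∈ P <;> by_cases hwP' : w' ∈ P
      · simp only [hwP, hwP', if_true] at heq
        exact hf2 w hwP hwW hwS w' hwP' hwW' hwS' heq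
      · simp only [hwP, hwP', if_true, if_false] at heq
        exact absurd (heq ▸ (hf1 w hwP hwW hwS).1) (hgs w' hwQ' hwP' hwW').2
      · simp only [hwP, hwP', if_true, if_false] at heq
        exact absurd (heq ▸ (hf1 w' hwP' hwW' hwS').1) (hgs w hwQ hwP hwW).2
      · simp only [hwP, hwP', if_false] at heq
        obtain ⟨h1, h2, h3, h4⟩ := hg' w hwQ hwP hwW
        obtain ⟨h1', h2', h3', h4'⟩ := hg' w' hwQ' hwP' hwW'
        rw [← heq] at h3'
        refine Finset.card_le_one.mp h4 w ?_ w' ?_
        · simp [missing, h3, hwP]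
        · simp [missing, h3', hwP']

lemma card_le_add_matching {G : SimpleGraph V} {D : V → V → Prop} {W : Finset V}
    (hD : IsOrientation G D) (hg : Good D W) (S : Finset V) (h : IsForcing D 1 S) :
    W.card ≤ S.card + matchingNumber G W := by
  obtain ⟨i, hi⟩ := h
  obtain ⟨f, hf1, hf2⟩ := match_inv hg S i
  rw [hi] at hf1 hf2
  have hfS : ∀ w ∈ W, w ∉ S → f w ∈ S ∧ f w ∈ W ∧ D (f w) w := by
    intro w hw hS
    obtain ⟨h1, h2⟩ := hf1 w (Finset.mem_univ _) hw hS
    simp only [spent, Finset.mem_filter, Finset.mem_inter] at h1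
    exact ⟨h1.1.1, h1.1.2, h2⟩
  set M : Finset (V × V) := (W \ S).image (fun w => (f w, w)) with hM
  have hcard : M.card = (W \ S).card := by
    rw [hM, Finset.card_image_of_injective]
    intro a b hab
    exact (Prod.mk.inj hab).2
  have hMm : IsMatchingIn G W M := by
    constructor
    · intro e he
      rw [hM, Finset.mem_image] at he
      obtain ⟨w, hw, rfl⟩ := he
      rw [Finset.mem_sdiff] at hw
      obtain ⟨h1, h2, h3⟩ := hfS w hw.1 hw.2
      exact ⟨(hD.1 _ _).mpr (Or.inl h3), h2, hw.1⟩
    · intro e he e' he' hne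
      rw [hM, Finset.mem_image] at he he'
      obtain ⟨w, hw, rfl⟩ := he
      obtain ⟨w', hw', rfl⟩ := he'
      rw [Finset.mem_sdiff] at hw hw'
      have hww : w ≠ w' := fun hh => hne (by rw [hh])
      obtain ⟨h1, -, -⟩ := hfS w hw.1 hw.2
      obtain ⟨h1', -, -⟩ := hfS w' hw'.1 hw'.2
      refine ⟨fun hh => hww (hf2 w (Finset.mem_univ _) hw.1 hw.2 w' (Finset.mem_univ _) hw'.1
        hw'.2 hh), ?_, ?_, hww⟩
      · intro hh
        have hh' : f w = w' := hh
        rw [hh'] at h1
        exact hw'.2 h1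
      · intro hh
        have hh' : w = f w' := hh
        rw [← hh'] at h1'
        exact hw.2 h1'
  have hle : (W \ S).card ≤ matchingNumber G W := by
    rw [← hcard]
    apply le_csSup
    · refine ⟨Fintype.card (V × V), ?_⟩
      rintro b ⟨M', -, rfl⟩
      exact Finset.card_le_univ M'
    · exact ⟨M, hMm, rfl⟩
  have h2 : W.card = (W ∩ S).card + (W \ S).card := (Finset.card_inter_add_card_sdiff W S).symm
  have h3 : (W ∩ S).card ≤ S.card := Finset.card_le_card Finset.inter_subset_right
  omega

/-- `MOF(G) ≥ |W| - μ(G[W])` for every vertex set `W` inducing a comparability graph. -/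
theorem card_le_MOF_add_matching [Nonempty V] (G : SimpleGraph V) (W : Finset V)
    (hW : InducesComparability G W) : W.card ≤ MOF G 1 + matchingNumber G W := by
  obtain ⟨D, hD, hg⟩ := exists_good G W hW
  have h : W.card - matchingNumber G W ≤ MOF G 1 := by
    apply le_MOF hD
    intro S hS
    have h1 := card_le_add_matching hD hg S hS
    omega
  omega

end OrientedForcing
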