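import Pool.Agent.OrientedForcing.Basic

/-!
# A counting lower bound for the maximum oriented `k`-forcing number

Every orientation with a small forcing set is determined, up to few edges, by a chronological list
of forces; so a graph with many edges has an orientation without small forcing sets.
-/

namespace OrientedForcing

open Classical

variable {V : Type} [Fintype V]

lemma step_mono (D : V → V → Prop) (k : ℕ) {Q P : Finset V} (h : Q ⊆ P) :
    step D k Q ⊆ step D k P := by
  intro w hw
  rw [step, Finset.mem_union, Finset.mem_filter] at hw ⊢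
  rcases hw with hw | ⟨_, u, hu, huw, hc⟩
  · exact Or.inl (h hw)
  · refine Or.inr ⟨Finset.mem_univ _, u, h hu, huw, (Finset.card_le_card ?_).trans hc⟩
    intro x hx
    simp only [missing, Finset.mem_filter] at hx ⊢
    exact ⟨hx.1, hx.2.1, fun hq => hx.2.2 (h hq)⟩

/-- While not everything is coloured, some coloured vertex can force. -/
lemma exists_active {D : V → V → Prop} {k : ℕ} {S P : Finset V} (hS : IsForcing D k S)
    (hSP : S ⊆ P) (hP : P ≠ Finset.univ) :
    ∃ u ∈ P, (missing D P u).Nonempty ∧ (missing D P u).card ≤ k := by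
  by_contra hcon
  push Not at hcon
  apply hP
  obtain ⟨i, hi⟩ := hS
  have hstep : step D k P ⊆ P := by
    intro w hw
    rw [step, Finset.mem_union, Finset.mem_filter] at hw
    rcases hw with hw | ⟨_, u, hu, huw, hc⟩
    · exact hw
    · by_contra hwP
      have hne : (missing D P u).Nonempty := ⟨w, by simp [missing, huw, hwP]⟩
      have := hcon u hu hne
      omega
  have hall : ∀ j, (step D k)^[j] S ⊆ P := by
    intro j
    induction j with
    | zero => exact hSP
    | succ j ih =>
      rw [Function.iterate_succ_apply']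
      exact (step_mono D k ih).trans hstep
  have := hall i
  rw [hi] at this
  exact Finset.univ_subset_iff.mp this

/-- A chronological list of forces: `t w` is the time at which `w` is coloured (`0` for the
initially coloured vertices), `p w` is the vertex forcing `w`. -/
structure Cert (D : V → V → Prop) (k : ℕ) (P : Finset V) (t : V → ℕ) (p : V → V) : Prop where
  zero : ∀ w, t w = 0 ↔ w ∈ P
  force : ∀ w, t w ≠ 0 → t (p w) < t w ∧ D (p w) w
  only : ∀ w x, t w ≠ 0 → t w ≤ t x → D (p w) x → p x = p w
  fiber : ∀ u, (Finset.univ.filter (fun w => t w ≠ 0 ∧ p w = u)).card ≤ k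

lemma exists_cert {D : V → V → Prop} {k : ℕ} {S : Finset V} (hS : IsForcing D k S) :
    ∀ (N : ℕ) (P : Finset V), S ⊆ P → (Finset.univ \ P).card = N →
      ∃ t p, Cert D k P t p := by
  intro N
  induction N using Nat.strong_induction_on with
  | _ N ih =>
    intro P hSP hN
    by_cases hP : P = Finset.univ
    · refine ⟨fun _ => 0, id, ?_, ?_, ?_, ?_⟩
      · intro w; simp [hP]
      · intro w h; exact absurd rfl h
      · intro w x h; exact absurd rfl h
      · intro u; simp
    · obtain ⟨u, huP, hne, hc⟩ := exists_active hS hSP hP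
      set A := missing D P u with hA
      have hAdef : ∀ x, x ∈ A ↔ (D u x ∧ x ∉ P) := by
        intro x; simp [hA, missing]
      have hPA : P ⊆ P ∪ A := Finset.subset_union_left
      obtain ⟨a, ha⟩ := hne
      have haP : a ∉ P := ((hAdef a).mp ha).2
      have hlt : (Finset.univ \ (P ∪ A)).card < N := by
        rw [← hN]
        apply Finset.card_lt_card
        refine ⟨Finset.sdiff_subset_sdiff subset_rfl hPA, fun hh => ?_⟩
        have h1 : a ∈ Finset.univ \ P := by simp [haP]
        have h2 := hh h1
        rw [Finset.mem_sdiff] at h2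
        exact h2.2 (Finset.mem_union_right _ ha)
      obtain ⟨t', p', hz, hf, ho, hfi⟩ := ih _ hlt (P ∪ A) (hSP.trans hPA) rfl
      have hz' : ∀ w, t' w = 0 ↔ (w ∈ P ∨ w ∈ A) := by
        intro w; rw [hz w, Finset.mem_union]
      set t : V → ℕ := fun w => if w ∈ P then 0 else t' w + 1 with ht
      set p : V → V := fun w => if w ∈ A then u else p' w with hp
      have htP : ∀ w, w ∈ P → t w = 0 := fun w hw => by simp [ht, hw]
      have htn : ∀ w, w ∉ P → t w = t' w + 1 := fun w hw => by simp [ht, hw]
      have htA : ∀ w, w ∈ A → t w = 1 := by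
        intro w hw
        rw [htn w ((hAdef w).mp hw).2, (hz' w).mpr (Or.inr hw)]
      have hpA : ∀ w, w ∈ A → p w = u := fun w hw => by simp [hp, hw]
      have hpn : ∀ w, w ∉ A → p w = p' w := fun w hw => by simp [hp, hw]
      have hne' : ∀ w, w ∉ P → w ∉ A → p' w ≠ u := by
        intro w hwP hwA heq
        have h1 := (hf w (fun h0 => by
          rcases (hz' w).mp h0 with h | h
          · exact hwP h
          · exact hwA h)).2
        rw [heq] at h1
        exact hwA ((hAdef w).mpr ⟨h1, hwP⟩)
      refine ⟨t, p, ?_, ?_, ?_, ?_⟩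
      · intro w
        by_cases hw : w ∈ P
        · simp [htP w hw, hw]
        · simp [htn w hw, hw]
      · intro w hw
        have hwP : w ∉ P := fun h => hw (htP w h)
        by_cases hwA : w ∈ A
        · rw [hpA w hwA, htP u huP, htA w hwA]
          exact ⟨one_pos, ((hAdef w).mp hwA).1⟩
        · have h0 : t' w ≠ 0 := fun h0 => by
            rcases (hz' w).mp h0 with h | h
            · exact hwP h
            · exact hwA h
          obtain ⟨h1, h2⟩ := hf w h0
          rw [hpn w hwA]
          refine ⟨?_, h2⟩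
          by_cases hq : p' w ∈ P
          · rw [htP _ hq, htn w hwP]; omega
          · rw [htn _ hq, htn w hwP]; omega
      · intro w x hw hwx hD
        have hwP : w ∉ P := fun h => hw (htP w h)
        have hxP : x ∉ P := fun h => by
          rw [htP x h] at hwx
          omega
        by_cases hwA : w ∈ A
        · rw [hpA w hwA] at hD ⊢
          exact hpA x ((hAdef x).mpr ⟨hD, hxP⟩)
        · have h0 : t' w ≠ 0 := fun h0 => by
            rcases (hz' w).mp h0 with h | h
            · exact hwP h
            · exact hwA h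
          rw [htn w hwP, htn x hxP] at hwx
          have hxA : x ∉ A := fun h => by
            have := (hz' x).mpr (Or.inr h)
            omega
          rw [hpn w hwA] at hD ⊢
          rw [hpn x hxA]
          exact ho w x h0 (by omega) hD
      · intro v
        by_cases hv : v = u
        · refine (Finset.card_le_card ?_).trans hc
          intro w hw
          rw [Finset.mem_filter] at hw
          obtain ⟨_, h1, h2⟩ := hw
          by_contra hwA
          have hwP : w ∉ P := fun h => h1 (htP w h)
          rw [hpn w hwA, hv] at h2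
          exact hne' w hwP hwA h2
        · refine (Finset.card_le_card ?_).trans (hfi v)
          intro w hw
          rw [Finset.mem_filter] at hw ⊢
          obtain ⟨_, h1, h2⟩ := hw
          have hwP : w ∉ P := fun h => h1 (htP w h)
          have hwA : w ∉ A := fun h => by
            rw [hpA w h] at h2
            exact hv h2.symm
          rw [hpn w hwA] at h2
          refine ⟨Finset.mem_univ _, fun h0 => ?_, h2⟩
          rcases (hz' w).mp h0 with h | h
          · exact hwP h
          · exact hwA h

/-- Compression of the time function to values `< card V`. -/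
lemma exists_small_cert {D : V → V → Prop} {k : ℕ} {S : Finset V} (hS : IsForcing D k S)
    (hne : S.Nonempty) :
    ∃ (τ : V → Fin (Fintype.card V)) (p : V → V), Cert D k S (fun w => (τ w : ℕ)) p := by
  obtain ⟨t, p, hz, hf, ho, hfi⟩ := exists_cert hS _ S subset_rfl rfl
  obtain ⟨s₀, hs₀⟩ := hne
  set c : V → ℕ := fun w => (Finset.univ.filter (fun x => t x < t w)).card with hc
  have hclt : ∀ w, c w < Fintype.card V := by
    intro w
    rw [← Finset.card_univ]
    apply Finset.card_lt_card
    refine ⟨Finset.subset_univ _, fun hh => ?_⟩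
    have := hh (Finset.mem_univ w)
    rw [Finset.mem_filter] at this
    exact lt_irrefl _ this.2
  have hmono : ∀ x w, t x ≤ t w → c x ≤ c w := by
    intro x w h
    apply Finset.card_le_card
    intro y hy
    rw [Finset.mem_filter] at hy ⊢
    exact ⟨hy.1, lt_of_lt_of_le hy.2 h⟩
  have hsmono : ∀ x w, t x < t w → c x < c w := by
    intro x w h
    apply Finset.card_lt_card
    refine ⟨fun y hy => ?_, fun hh => ?_⟩
    · rw [Finset.mem_filter] at hy ⊢
      exact ⟨hy.1, hy.2.trans h⟩
    · have h1 : x ∈ Finset.univ.filter (fun y => t y < t w) := by simp [h]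
      have h2 := hh h1
      rw [Finset.mem_filter] at h2
      exact lt_irrefl _ h2.2
  have hle : ∀ x w, c x ≤ c w → t x ≤ t w := by
    intro x w h
    by_contra hh
    exact absurd (hsmono w x (not_le.mp hh)) (not_lt.mpr h)
  have hzero : ∀ w, c w = 0 ↔ t w = 0 := by
    intro w
    constructor
    · intro h
      by_contra hh
      have h1 : t s₀ < t w := by
        rw [(hz s₀).mpr hs₀]
        omega
      have := hsmono s₀ w h1
      omega
    · intro h
      simp [hc, h]
  refine ⟨fun w => ⟨c w, hclt w⟩, p, ?_, ?_, ?_, ?_⟩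
  · intro w
    show c w = 0 ↔ w ∈ S
    rw [hzero, hz]
  · intro w hw
    have hw' : t w ≠ 0 := fun h => hw ((hzero w).mpr h)
    obtain ⟨h1, h2⟩ := hf w hw'
    exact ⟨hsmono _ _ h1, h2⟩
  · intro w x hw hwx hD
    have hw' : t w ≠ 0 := fun h => hw ((hzero w).mpr h)
    exact ho w x hw' (hle w x hwx) hD
  · intro u
    refine (Finset.card_le_card ?_).trans (hfi u)
    intro w hw
    rw [Finset.mem_filter] at hw ⊢
    exact ⟨hw.1, fun h => hw.2.1 ((hzero w).mpr h), hw.2.2⟩

/-- The orientation of `G` coded by a set of edges. -/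
def orient (G : SimpleGraph V) (b : Finset (Sym2 V)) : V → V → Prop :=
  fun u v => G.Adj u v ∧ (Fintype.equivFin V u < Fintype.equivFin V v ↔ s(u, v) ∈ b)

lemma orient_isOrientation (G : SimpleGraph V) (b : Finset (Sym2 V)) :
    IsOrientation G (orient G b) := by
  have hne : ∀ u v, G.Adj u v → Fintype.equivFin V u ≠ Fintype.equivFin V v :=
    fun u v h hh => h.ne ((Fintype.equivFin V).injective hh)
  constructor
  · intro u v
    constructor
    · intro h
      have h1 := hne u v h
      by_cases hb : s(u, v) ∈ b
      · rcases lt_or_gt_of_ne h1 with h2 | h2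
        · exact Or.inl ⟨h, by simp [h2, hb]⟩
        · exact Or.inr ⟨h.symm, by rw [Sym2.eq_swap]; simp [h2, hb]⟩
      · rcases lt_or_gt_of_ne h1 with h2 | h2
        · refine Or.inr ⟨h.symm, ?_⟩
          rw [Sym2.eq_swap]
          simp [hb, h2.le]
        · refine Or.inl ⟨h, ?_⟩
          simp [hb, h2.le]
    · rintro (h | h)
      · exact h.1
      · exact h.1.symm
  · rintro u v ⟨⟨h, h1⟩, ⟨_, h2⟩⟩
    rw [Sym2.eq_swap] at h2
    have h3 := hne u v h
    rcases lt_or_gt_of_ne h3 with h4 | h4
    · exact absurd (h2.mpr (h1.mp h4)) (not_lt.mpr h4.le)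
    · exact absurd (h1.mpr (h2.mp h4)) (not_lt.mpr h4.le)

/-- The edge set of `G` as a finset. -/
noncomputable def edges (G : SimpleGraph V) : Finset (Sym2 V) :=
  Finset.univ.filter (fun z => z ∈ G.edgeSet)

/-- The pairs whose orientation is determined by a certificate. -/
noncomputable def pairs (τ : V → ℕ) : Finset (V × V) :=
  Finset.univ.filter (fun q => τ q.1 ≠ 0 ∧ τ q.1 ≤ τ q.2)

noncomputable def det (τ : V → ℕ) (p : V → V) : Finset (Sym2 V) :=
  (pairs τ).image (fun q => s(p q.1, q.2))

lemma pairs_card (τ : V → ℕ) (m : ℕ) (hm : m ≤ (Finset.univ.filter (fun w => τ w ≠ 0)).card) :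
    m * (m + 1) ≤ 2 * (pairs τ).card := by
  set Φ := Finset.univ.filter (fun w => τ w ≠ 0) with hΦ
  set T := pairs τ with hT
  set T' := T.map (Equiv.prodComm V V).toEmbedding with hT'
  have hcard : T'.card = T.card := Finset.card_map _
  have hmem' : ∀ q : V × V, q ∈ T' ↔ (τ q.2 ≠ 0 ∧ τ q.2 ≤ τ q.1) := by
    rintro ⟨a, b⟩
    simp only [hT', Finset.mem_map, hT, pairs, Finset.mem_filter, Finset.mem_univ, true_and]
    constructor
    · rintro ⟨⟨c, d⟩, h, heq⟩
      simp at heq
      obtain ⟨rfl, rfl⟩ := heq
      exact h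
    · intro h
      exact ⟨(b, a), h, rfl⟩
  have hmem : ∀ q : V × V, q ∈ T ↔ (τ q.1 ≠ 0 ∧ τ q.1 ≤ τ q.2) := by
    intro q
    simp [hT, pairs]
  have hunion : Φ ×ˢ Φ ⊆ T ∪ T' := by
    rintro ⟨a, b⟩ hq
    rw [Finset.mem_product] at hq
    simp only [hΦ, Finset.mem_filter, Finset.mem_univ, true_and] at hq
    rw [Finset.mem_union, hmem, hmem']
    rcases le_total (τ a) (τ b) with h | h
    · exact Or.inl ⟨hq.1, h⟩
    · exact Or.inr ⟨hq.2, h⟩
  have hinter : Φ.map ⟨fun w => (w, w), fun a b h => (Prod.mk.inj h).1⟩ ⊆ T ∩ T' := by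
    intro q hq
    rw [Finset.mem_map] at hq
    obtain ⟨w, hw, rfl⟩ := hq
    simp only [hΦ, Finset.mem_filter, Finset.mem_univ, true_and] at hw
    rw [Finset.mem_inter, hmem, hmem']
    exact ⟨⟨hw, le_rfl⟩, ⟨hw, le_rfl⟩⟩
  have h1 := Finset.card_le_card hunion
  have h2 := Finset.card_le_card hinter
  rw [Finset.card_product] at h1
  rw [Finset.card_map] at h2
  have h3 := Finset.card_union_add_card_inter T T'
  have h4 : m * (m + 1) ≤ Φ.card * (Φ.card + 1) := by gcongr
  have h5 : Φ.card * (Φ.card + 1) = Φ.card * Φ.card + Φ.card := by ring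
  omega

lemma det_card {τ : V → ℕ} {p : V → V} {k : ℕ} (hf : ∀ w, τ w ≠ 0 → τ (p w) < τ w)
    (hfi : ∀ u, (Finset.univ.filter (fun w => τ w ≠ 0 ∧ p w = u)).card ≤ k) :
    (pairs τ).card ≤ k * (det τ p).card := by
  apply Finset.card_le_mul_card_image
  intro z hz
  rw [Finset.mem_image] at hz
  obtain ⟨⟨w, x⟩, hwx, rfl⟩ := hz
  have hwx' : τ w ≠ 0 ∧ τ w ≤ τ x := by simpa [pairs] using hwx
  refine le_trans ?_ (hfi (p w))
  refine Finset.card_le_card_of_injOn (fun q => q.1) ?_ ?_
  · rintro ⟨w', x'⟩ hq
    have hq' : (τ w' ≠ 0 ∧ τ w' ≤ τ x') ∧ s(p w', x') = s(p w, x) := by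
      simpa [pairs] using hq
    obtain ⟨⟨h1, h2⟩, h3⟩ := hq'
    rw [Sym2.eq_iff] at h3
    rcases h3 with ⟨h3, _⟩ | ⟨h3, h4⟩
    · simp [h1, h3]
    · exfalso
      have a1 := hf w hwx'.1
      have a2 := hf w' h1
      rw [h3] at a2
      rw [h4] at h2
      omega
  · rintro ⟨w', x'⟩ hq ⟨w'', x''⟩ hq' heq
    have hq1 : (τ w' ≠ 0 ∧ τ w' ≤ τ x') ∧ s(p w', x') = s(p w, x) := by
      simpa [pairs] using hq
    have hq2 : (τ w'' ≠ 0 ∧ τ w'' ≤ τ x'') ∧ s(p w'', x'') = s(p w, x) := by
      simpa [pairs] using hq'
    have hww : w' = w'' := heq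
    subst hww
    have h3 := hq1.2.trans hq2.2.symm
    rw [Sym2.congr_right] at h3
    rw [h3]

/-- The certificate `(τ, p)` is compatible with the orientation coded by `b`. -/
def Compat (G : SimpleGraph V) (k s : ℕ) (b : Finset (Sym2 V))
    (c : (V → Fin (Fintype.card V)) × (V → V)) : Prop :=
  ∃ S : Finset V, S.card ≤ s ∧ Cert (orient G b) k S (fun w => (c.1 w : ℕ)) c.2

lemma compat_agree {G : SimpleGraph V} {k s : ℕ} {b b' : Finset (Sym2 V)}
    {c : (V → Fin (Fintype.card V)) × (V → V)} (h : Compat G k s b c) (h' : Compat G k s b' c)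
    {z : Sym2 V} (hz : z ∈ det (fun w => (c.1 w : ℕ)) c.2) (hzE : z ∈ G.edgeSet) :
    z ∈ b ↔ z ∈ b' := by
  obtain ⟨S, _, hC⟩ := h
  obtain ⟨S', _, hC'⟩ := h'
  rw [det, Finset.mem_image] at hz
  obtain ⟨⟨w, x⟩, hwx, rfl⟩ := hz
  have hwx' : (c.1 w : ℕ) ≠ 0 ∧ (c.1 w : ℕ) ≤ (c.1 x : ℕ) := by
    have := hwx
    simp only [pairs, Finset.mem_filter, Finset.mem_univ, true_and] at this
    exact this
  have hxn : (c.1 x : ℕ) ≠ 0 := by omega
  rw [SimpleGraph.mem_edgeSet] at hzE
  have key : ∀ b₀ : Finset (Sym2 V), ∀ S₀, Cert (orient G b₀) k S₀ (fun w => (c.1 w : ℕ)) c.2 →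
      (orient G b₀ (c.2 w) x ↔ c.2 x = c.2 w) := by
    intro b₀ S₀ hc
    constructor
    · intro hD
      exact hc.only w x hwx'.1 hwx'.2 hD
    · intro heq
      have := (hc.force x hxn).2
      rwa [heq] at this
  have k1 := key b S hC
  have k2 := key b' S' hC'
  simp only [orient, hzE, true_and] at k1 k2
  have k3 := k1.trans k2.symm
  show s(c.2 w, x) ∈ b ↔ s(c.2 w, x) ∈ b'
  tauto

lemma compat_card {G : SimpleGraph V} {k s d : ℕ} (hk : 1 ≤ k)
    (hd : 2 * k * d ≤ (Fintype.card V - s) * (Fintype.card V - s + 1))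
    (c : (V → Fin (Fintype.card V)) × (V → V)) :
    (((edges G).powerset).filter (fun b => Compat G k s b c)).card * 2 ^ d ≤
      2 ^ ((edges G).card + (edges Gᶜ).card) := by
  set B := ((edges G).powerset).filter (fun b => Compat G k s b c) with hB
  rcases B.eq_empty_or_nonempty with hemp | ⟨b₀, hb₀⟩
  · rw [hemp]; simp
  · set τ : V → ℕ := fun w => (c.1 w : ℕ) with hτ
    set Dt := det τ c.2 with hDt
    have hb₀' := (Finset.mem_filter.mp hb₀).2
    obtain ⟨S, hSs, hC⟩ := hb₀'
    have hfilter : Finset.univ.filter (fun w => τ w ≠ 0) = Finset.univ \ S := by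
      ext w
      have := hC.zero w
      simp only [Finset.mem_filter, Finset.mem_univ, true_and, Finset.mem_sdiff]
      exact not_congr this
    have hm : Fintype.card V - s ≤ (Finset.univ.filter (fun w => τ w ≠ 0)).card := by
      rw [hfilter, Finset.card_univ_sdiff]
      omega
    have h1 := pairs_card τ _ hm
    have h2 : (pairs τ).card ≤ k * Dt.card :=
      det_card (fun w hw => (hC.force w hw).1) hC.fiber
    have h3 : d ≤ Dt.card := by
      have : 2 * k * d ≤ 2 * k * Dt.card := by
        calc 2 * k * d ≤ 2 * (pairs τ).card := hd.trans h1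
          _ ≤ 2 * (k * Dt.card) := by gcongr
          _ = 2 * k * Dt.card := by ring
      exact Nat.le_of_mul_le_mul_left this (by omega)
    have hDsub : Dt ⊆ edges G ∪ edges Gᶜ := by
      intro z hz
      rw [hDt, det, Finset.mem_image] at hz
      obtain ⟨⟨w, x⟩, hwx, rfl⟩ := hz
      have hwx' : τ w ≠ 0 ∧ τ w ≤ τ x := by
        simp only [pairs, Finset.mem_filter, Finset.mem_univ, true_and] at hwx
        exact hwx
      have hne : c.2 w ≠ x := by
        intro heq
        have := (hC.force w hwx'.1).1
        rw [heq] at this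
        have h5 : τ x < τ w := this
        omega
      rw [Finset.mem_union]
      simp only [edges, Finset.mem_filter, Finset.mem_univ, true_and, SimpleGraph.mem_edgeSet,
        SimpleGraph.compl_adj]
      by_cases hadj : G.Adj (c.2 w) x
      · exact Or.inl hadj
      · exact Or.inr ⟨hne, hadj⟩
    have h4 : (edges G \ Dt).card + Dt.card ≤ (edges G).card + (edges Gᶜ).card := by
      have a1 := Finset.card_sdiff_add_card_inter (edges G) Dt
      have a2 : (Dt \ edges G).card ≤ (edges Gᶜ).card := by
        apply Finset.card_le_card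
        intro z hz
        rw [Finset.mem_sdiff] at hz
        rcases Finset.mem_union.mp (hDsub hz.1) with h | h
        · exact absurd h hz.2
        · exact h
      have a3 := Finset.card_sdiff_add_card_inter Dt (edges G)
      rw [Finset.inter_comm] at a3
      omega
    have h5 : B.card ≤ ((edges G \ Dt).powerset).card := by
      apply Finset.card_le_card_of_injOn (fun b => b \ Dt)
      · intro b hb
        have hb' := (Finset.mem_filter.mp hb).1
        rw [Finset.mem_powerset] at hb'
        simp only [Finset.coe_powerset, Set.mem_preimage, Set.mem_powerset_iff, Finset.coe_subset]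
        exact Finset.sdiff_subset_sdiff hb' subset_rfl
      · intro b hb b' hb' heq
        have h6 := Finset.mem_filter.mp hb
        have h7 := Finset.mem_filter.mp hb'
        have heq' : b \ Dt = b' \ Dt := heq
        ext z
        by_cases hz : z ∈ Dt
        · by_cases hzE : z ∈ G.edgeSet
          · exact compat_agree h6.2 h7.2 hz hzE
          · have g1 : z ∉ b := fun h => hzE (by
              have := (Finset.mem_powerset.mp h6.1) h
              simpa [edges] using this)
            have g2 : z ∉ b' := fun h => hzE (by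
              have := (Finset.mem_powerset.mp h7.1) h
              simpa [edges] using this)
            simp [g1, g2]
        · have := Finset.ext_iff.mp heq' z
          simpa [Finset.mem_sdiff, hz] using this
    rw [Finset.card_powerset] at h5
    calc B.card * 2 ^ d ≤ 2 ^ (edges G \ Dt).card * 2 ^ Dt.card := by
          gcongr
          norm_num
      _ = 2 ^ ((edges G \ Dt).card + Dt.card) := by rw [pow_add]
      _ ≤ 2 ^ ((edges G).card + (edges Gᶜ).card) := by
          gcongr
          norm_num

/-- **Counting bound.** If `n^(2n) 2^ē < 2^d` where `ē` is the number of edges of the complement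
and `2 k d ≤ (n - s)(n - s + 1)`, then `MOF_k(G) ≥ s + 1`. -/
theorem counting [Nonempty V] (G : SimpleGraph V) {k s d : ℕ} (hk : 1 ≤ k)
    (hd : 2 * k * d ≤ (Fintype.card V - s) * (Fintype.card V - s + 1))
    (h : Fintype.card V ^ (2 * Fintype.card V) * 2 ^ (edges Gᶜ).card < 2 ^ d) :
    s + 1 ≤ MOF G k := by
  by_contra hcon
  have hall : ∀ b ∈ (edges G).powerset, ∃ c : (V → Fin (Fintype.card V)) × (V → V),
      Compat G k s b c := by
    intro b _
    by_contra hno
    apply hcon
    apply le_MOF (orient_isOrientation G b)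
    intro S hS
    by_contra hlt
    apply hno
    have hne : S.Nonempty := by
      rw [Finset.nonempty_iff_ne_empty]
      rintro rfl
      obtain ⟨i, hi⟩ := hS
      have hemp : ∀ j, (step (orient G b) k)^[j] ∅ = ∅ := by
        intro j
        induction j with
        | zero => rfl
        | succ j ih =>
          rw [Function.iterate_succ_apply', ih]
          simp [step]
      rw [hemp i] at hi
      obtain ⟨v⟩ := ‹Nonempty V›
      have := Finset.mem_univ v
      rw [← hi] at this
      simp at this
    obtain ⟨τ, p, hC⟩ := exists_small_cert hS hne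
    exact ⟨(τ, p), S, by omega, hC⟩
  have hcover : (edges G).powerset ⊆
      (Finset.univ : Finset ((V → Fin (Fintype.card V)) × (V → V))).biUnion
        (fun c => ((edges G).powerset).filter (fun b => Compat G k s b c)) := by
    intro b hb
    obtain ⟨c, hc⟩ := hall b hb
    rw [Finset.mem_biUnion]
    exact ⟨c, Finset.mem_univ _, Finset.mem_filter.mpr ⟨hb, hc⟩⟩
  have h1 : 2 ^ (edges G).card ≤ ∑ c : (V → Fin (Fintype.card V)) × (V → V),
      (((edges G).powerset).filter (fun b => Compat G k s b c)).card := by
    rw [← Finset.card_powerset]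
    exact (Finset.card_le_card hcover).trans Finset.card_biUnion_le
  have h2 : 2 ^ (edges G).card * 2 ^ d ≤
      (Fintype.card V ^ (2 * Fintype.card V)) * 2 ^ ((edges G).card + (edges Gᶜ).card) := by
    calc 2 ^ (edges G).card * 2 ^ d
        ≤ (∑ c : (V → Fin (Fintype.card V)) × (V → V),
          (((edges G).powerset).filter (fun b => Compat G k s b c)).card) * 2 ^ d := by gcongr
      _ = ∑ c : (V → Fin (Fintype.card V)) × (V → V),
          (((edges G).powerset).filter (fun b => Compat G k s b c)).card * 2 ^ d :=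
          Finset.sum_mul _ _ _
      _ ≤ ∑ _c : (V → Fin (Fintype.card V)) × (V → V),
          2 ^ ((edges G).card + (edges Gᶜ).card) :=
          Finset.sum_le_sum (fun c _ => compat_card hk hd c)
      _ = _ := by
          rw [Finset.sum_const, smul_eq_mul, Finset.card_univ, Fintype.card_prod,
            Fintype.card_fun, Fintype.card_fun, Fintype.card_fin, ← pow_add]
          congr 2
          ring
  have h3 : 2 ^ (edges G).card * 2 ^ d ≤ 2 ^ (edges G).card *
      (Fintype.card V ^ (2 * Fintype.card V) * 2 ^ (edges Gᶜ).card) := by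
    calc _ ≤ _ := h2
      _ = _ := by rw [pow_add]; ring
  have h4 := Nat.le_of_mul_le_mul_left h3 (by positivity)
  omega

end OrientedForcing
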