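import Pool.Agent.OrientedForcing.Dense

/-!
# Real forms of the counting lower bound
-/

namespace OrientedForcing

open Classical

variable {V : Type} [Fintype V]

lemma edges_card (G : SimpleGraph V) : (edges G).card = G.edgeSet.ncard := by
  have h : (↑(edges G) : Set (Sym2 V)) = G.edgeSet := by
    ext z
    simp [edges]
  rw [← h, Set.ncard_coe_finset]

theorem counting_real [Nonempty V] (G : SimpleGraph V) {k s d : ℕ} (hk : 1 ≤ k)
    (hd : 2 * k * d ≤ (Fintype.card V - s) * (Fintype.card V - s + 1))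
    (h : (Gᶜ.edgeSet.ncard : ℝ) + 2 * Fintype.card V * Real.logb 2 (Fintype.card V) < d) :
    s + 1 ≤ MOF G k := by
  apply counting G hk hd
  set n := Fintype.card V with hn
  have hn0 : 0 < n := Fintype.card_pos
  have hnr : (0 : ℝ) < n := by exact_mod_cast hn0
  have h1 : (n : ℝ) ^ (2 * n) = (2 : ℝ) ^ (2 * n * Real.logb 2 n : ℝ) := by
    conv_lhs => rw [← Real.rpow_logb (b := 2) (by norm_num) (by norm_num) hnr]
    rw [← Real.rpow_natCast, ← Real.rpow_mul (by norm_num)]
    congr 1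
    push_cast
    ring
  have h2 : ((n ^ (2 * n) * 2 ^ (edges Gᶜ).card : ℕ) : ℝ) < ((2 ^ d : ℕ) : ℝ) := by
    push_cast
    rw [h1, ← Real.rpow_natCast 2 (edges Gᶜ).card, ← Real.rpow_natCast 2 d,
      ← Real.rpow_add (by norm_num), edges_card]
    apply Real.rpow_lt_rpow_of_exponent_lt (by norm_num)
    linarith
  exact_mod_cast h2

/-- Dense graphs: `ē + 2 n log₂ n + 1 ≤ k n² / (2 (k + 1)²)` implies
`MOF_k(G) ≥ ⌈n / (k + 1)⌉`. -/
theorem dense (G : SimpleGraph V) {k : ℕ} (hk : 1 ≤ k)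
    (h : (Gᶜ.edgeSet.ncard : ℝ) + 2 * Fintype.card V * Real.logb 2 (Fintype.card V) + 1 ≤
      k * (Fintype.card V : ℝ) ^ 2 / (2 * (k + 1) ^ 2)) :
    ⌈(Fintype.card V : ℚ) / (k + 1)⌉₊ ≤ MOF G k := by
  rcases isEmpty_or_nonempty V with hV | hV
  · have : Fintype.card V = 0 := Fintype.card_eq_zero
    rw [this]
    simp
  set n := Fintype.card V with hn
  have hn0 : 0 < n := Fintype.card_pos
  have hk0 : (0 : ℝ) < k := by exact_mod_cast hk
  set c := ⌈(n : ℚ) / (k + 1)⌉₊ with hc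
  have hc0 : 0 < c := by
    rw [hc, Nat.ceil_pos]
    positivity
  obtain ⟨s, hs⟩ : ∃ s, c = s + 1 := ⟨c - 1, by omega⟩
  have hslt : (s : ℚ) < (n : ℚ) / (k + 1) := by
    have h1 : s < c := by omega
    rw [hc, Nat.lt_ceil] at h1
    exact h1
  have hsr : (s : ℝ) < (n : ℝ) / (k + 1) := by
    have := (Rat.cast_lt (K := ℝ)).mpr hslt
    push_cast at this
    exact this
  have hsr' : (s : ℝ) * (k + 1) < n := by
    rwa [lt_div_iff₀ (by positivity)] at hsr
  have hsn : s < n := by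
    have h2 : (s : ℝ) < n := by nlinarith [Nat.cast_nonneg (α := ℝ) s]
    exact_mod_cast h2
  set m := n - s with hm
  have hmr : (m : ℝ) = n - s := by
    rw [hm, Nat.cast_sub hsn.le]
  have hm1 : (k : ℝ) * n / (k + 1) < m := by
    rw [hmr, div_lt_iff₀ (by positivity)]
    nlinarith
  set d := m * (m + 1) / (2 * k) with hd
  rw [hs]
  apply counting_real G hk (s := s) (d := d)
  · rw [mul_comm]
    exact Nat.div_mul_le_self _ _
  · have h3 : ((m * (m + 1) : ℕ) : ℝ) < (2 * k) * ((d : ℝ) + 1) := by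
      have h4 := Nat.lt_mul_div_succ (m * (m + 1)) (show 0 < 2 * k by omega)
      rw [← hd] at h4
      exact_mod_cast h4
    push_cast at h3
    have h5 : ((k : ℝ) * n / (k + 1)) ^ 2 ≤ (m : ℝ) ^ 2 := by
      apply pow_le_pow_left₀ (by positivity) hm1.le
    have h6 : (k : ℝ) * (n : ℝ) ^ 2 / (2 * (k + 1) ^ 2) = ((k : ℝ) * n / (k + 1)) ^ 2 / (2 * k) := by
      field_simp
    have h7 : ((k : ℝ) * n / (k + 1)) ^ 2 / (2 * k) < d + 1 := by
      rw [div_lt_iff₀ (by positivity)]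
      nlinarith [Nat.cast_nonneg (α := ℝ) m]
    rw [h6] at h
    linarith

/-- `2 n log₂ n + ē ≤ μ(G)² / 2` implies `MOF(G) ≥ n - μ(G)`. -/
theorem dense_matching (G : SimpleGraph V)
    (h : (Gᶜ.edgeSet.ncard : ℝ) + 2 * Fintype.card V * Real.logb 2 (Fintype.card V) ≤
      (matchingNumber G Finset.univ : ℝ) ^ 2 / 2) :
    (Fintype.card V : ℤ) - matchingNumber G Finset.univ ≤ MOF G 1 := by
  rcases isEmpty_or_nonempty V with hV | hV
  · have : Fintype.card V = 0 := Fintype.card_eq_zero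
    rw [this]
    push_cast
    omega
  set n := Fintype.card V with hn
  set μ := matchingNumber G Finset.univ with hμ
  by_cases hlt : n ≤ μ
  · omega
  push Not at hlt
  set d := (μ + 1) * (μ + 2) / 2 with hd
  have hns : n - (n - μ - 1) = μ + 1 := by omega
  have key : (n - μ - 1) + 1 ≤ MOF G 1 := by
    apply counting_real G le_rfl (d := d)
    · rw [← hn, hns, mul_one, mul_comm]
      exact Nat.div_mul_le_self _ _
    · have h4 := Nat.lt_mul_div_succ ((μ + 1) * (μ + 2)) (show 0 < 2 by omega)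
      rw [← hd] at h4
      have h3 : (((μ + 1) * (μ + 2) : ℕ) : ℝ) < 2 * ((d : ℝ) + 1) := by exact_mod_cast h4
      push_cast at h3
      nlinarith [Nat.cast_nonneg (α := ℝ) μ]
  omega

/-- The vertices missed by a maximum matching are pairwise non-adjacent. -/
lemma unmatched (G : SimpleGraph V) :
    (Fintype.card V - 2 * matchingNumber G Finset.univ) *
      (Fintype.card V - 2 * matchingNumber G Finset.univ - 1) ≤ 2 * (edges Gᶜ).card := by
  set μ := matchingNumber G Finset.univ with hμ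
  have hbdd : BddAbove {m | ∃ M : Finset (V × V), IsMatchingIn G Finset.univ M ∧ M.card = m} := by
    refine ⟨Fintype.card (V × V), ?_⟩
    rintro b ⟨M', -, rfl⟩
    exact Finset.card_le_univ M'
  have hne : {m | ∃ M : Finset (V × V), IsMatchingIn G Finset.univ M ∧ M.card = m}.Nonempty :=
    ⟨0, ∅, ⟨by simp, by simp⟩, rfl⟩
  obtain ⟨M, hM, hMc⟩ := Nat.sSup_mem hne hbdd
  have hMc' : M.card = μ := hMc
  set U := (Finset.univ : Finset V) \ (M.image Prod.fst ∪ M.image Prod.snd) with hU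
  have hUc : Fintype.card V - 2 * μ ≤ U.card := by
    rw [hU, Finset.card_univ_sdiff]
    have h1 := Finset.card_union_le (M.image Prod.fst) (M.image Prod.snd)
    have h2 : (M.image Prod.fst).card ≤ M.card := Finset.card_image_le
    have h3 : (M.image Prod.snd).card ≤ M.card := Finset.card_image_le
    omega
  have hUn : ∀ x ∈ U, ∀ e ∈ M, x ≠ e.1 ∧ x ≠ e.2 := by
    intro x hx e he
    rw [hU, Finset.mem_sdiff, Finset.mem_union, not_or] at hx
    refine ⟨fun h => hx.2.1 ?_, fun h => hx.2.2 ?_⟩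
    · rw [h]; exact Finset.mem_image_of_mem _ he
    · rw [h]; exact Finset.mem_image_of_mem _ he
  have hind : ∀ x ∈ U, ∀ y ∈ U, x ≠ y → ¬ G.Adj x y := by
    intro x hx y hy hxy hadj
    have hnotin : (x, y) ∉ M := fun h => (hUn x hx (x, y) h).1 rfl
    have hM' : IsMatchingIn G Finset.univ (insert (x, y) M) := by
      constructor
      · intro e he
        rcases Finset.mem_insert.mp he with rfl | he
        · exact ⟨hadj, Finset.mem_univ _, Finset.mem_univ _⟩
        · exact hM.1 e he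
      · intro e he e' he' hne'
        rcases Finset.mem_insert.mp he with rfl | he <;>
          rcases Finset.mem_insert.mp he' with rfl | he'
        · exact absurd rfl hne'
        · have a := hUn x hx e' he'
          have b := hUn y hy e' he'
          exact ⟨a.1, a.2, b.1, b.2⟩
        · have a := hUn x hx e he
          have b := hUn y hy e he
          exact ⟨a.1.symm, b.1.symm, a.2.symm, b.2.symm⟩
        · exact hM.2 e he e' he' hne'
    have h1 : (insert (x, y) M).card ≤ μ := le_csSup hbdd ⟨_, hM', rfl⟩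
    rw [Finset.card_insert_of_notMem hnotin] at h1
    omega
  have h1 : U.offDiag.card ≤ 2 * (U.offDiag.image (fun q => s(q.1, q.2))).card := by
    apply Finset.card_le_mul_card_image
    intro z hz
    rw [Finset.mem_image] at hz
    obtain ⟨⟨a, b⟩, -, rfl⟩ := hz
    refine (Finset.card_le_card (t := {(a, b), (b, a)}) ?_).trans Finset.card_le_two
    rintro ⟨c, d⟩ hq
    rw [Finset.mem_filter] at hq
    have h2 : s(c, d) = s(a, b) := hq.2
    rw [Sym2.eq_iff] at h2
    rcases h2 with ⟨rfl, rfl⟩ | ⟨rfl, rfl⟩ <;> simp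
  have h2 : (U.offDiag.image (fun q => s(q.1, q.2))).card ≤ (edges Gᶜ).card := by
    apply Finset.card_le_card
    intro z hz
    rw [Finset.mem_image] at hz
    obtain ⟨⟨a, b⟩, hab, rfl⟩ := hz
    rw [Finset.mem_offDiag] at hab
    simp only [edges, Finset.mem_filter, Finset.mem_univ, true_and, SimpleGraph.mem_edgeSet,
      SimpleGraph.compl_adj]
    exact ⟨hab.2.2, hind a hab.1 b hab.2.1 hab.2.2⟩
  rw [Finset.offDiag_card] at h1
  have h3 : (Fintype.card V - 2 * μ) * (Fintype.card V - 2 * μ - 1) ≤ U.card * (U.card - 1) := by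
    gcongr
  have h4 : U.card * (U.card - 1) = U.card * U.card - U.card := by
    rw [Nat.mul_sub, mul_one]
  omega

lemma nlogn {δ : ℝ} (hδ : 0 < δ) : ∃ N : ℕ, ∀ n : ℕ, N ≤ n →
    2 * (n : ℝ) * Real.logb 2 n + 1 ≤ δ * (n : ℝ) ^ 2 := by
  have hlog2 : 0 < Real.log 2 := Real.log_pos (by norm_num)
  have h1 := (Real.isLittleO_log_id_atTop.def (show 0 < δ * Real.log 2 / 4 by positivity))
  have h2 : ∀ᶠ n : ℕ in Filter.atTop, ‖Real.log (n : ℝ)‖ ≤ δ * Real.log 2 / 4 * ‖(n : ℝ)‖ :=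
    tendsto_natCast_atTop_atTop.eventually h1
  have h3 : ∀ᶠ n : ℕ in Filter.atTop, max 1 (2 / δ) ≤ (n : ℝ) :=
    tendsto_natCast_atTop_atTop.eventually_ge_atTop _
  obtain ⟨N, hN⟩ := (h2.and h3).exists_forall_of_atTop
  refine ⟨N, fun n hn => ?_⟩
  obtain ⟨h4, h5⟩ := hN n hn
  have h6 : (1 : ℝ) ≤ n := (le_max_left _ _).trans h5
  have h7 : 2 / δ ≤ (n : ℝ) := (le_max_right _ _).trans h5
  have h8 : Real.log n ≤ δ * Real.log 2 / 4 * n := by
    rw [Real.norm_eq_abs, Real.norm_eq_abs, abs_of_nonneg (by linarith : (0 : ℝ) ≤ n)] at h4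
    exact (le_abs_self _).trans h4
  have h9 : Real.logb 2 n ≤ δ / 4 * n := by
    rw [Real.logb, div_le_iff₀ hlog2]
    nlinarith
  have h10 : 1 ≤ δ / 2 * (n : ℝ) ^ 2 := by
    have : 2 ≤ δ * n := by
      rw [div_le_iff₀ hδ] at h7
      linarith
    nlinarith
  nlinarith

/-- For every `ε > 0`, all large graphs with at most `(k / (2 (k + 1)²) - ε) n²` missing edges
satisfy `MOF_k(G) ≥ ⌈n / (k + 1)⌉`. -/
theorem dense_eventually {k : ℕ} (hk : 1 ≤ k) {ε : ℝ} (hε : 0 < ε) :
    ∃ N : ℕ, ∀ (V : Type) [Fintype V] (G : SimpleGraph V), N ≤ Fintype.card V →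
      (Gᶜ.edgeSet.ncard : ℝ) ≤ (k / (2 * (k + 1) ^ 2) - ε) * (Fintype.card V : ℝ) ^ 2 →
      ⌈(Fintype.card V : ℚ) / (k + 1)⌉₊ ≤ MOF G k := by
  obtain ⟨N, hN⟩ := nlogn hε
  refine ⟨N, fun V _ G hn h => dense G hk ?_⟩
  have h1 := hN _ hn
  have h2 : (k : ℝ) * (Fintype.card V : ℝ) ^ 2 / (2 * (k + 1) ^ 2) =
      k / (2 * (k + 1) ^ 2) * (Fintype.card V : ℝ) ^ 2 := by ring
  rw [h2]
  nlinarith

/-- All large graphs with at most `n² / 20` missing edges satisfy `MOF(G) ≥ n - μ(G)`. -/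
theorem dense_matching_eventually :
    ∃ N : ℕ, ∀ (V : Type) [Fintype V] (G : SimpleGraph V), N ≤ Fintype.card V →
      (Gᶜ.edgeSet.ncard : ℝ) ≤ (Fintype.card V : ℝ) ^ 2 / 20 →
      (Fintype.card V : ℤ) - matchingNumber G Finset.univ ≤ MOF G 1 := by
  obtain ⟨N, hN⟩ := nlogn (show (0 : ℝ) < 1 / 250 by norm_num)
  refine ⟨max N 100, fun V _ G hn h => dense_matching G ?_⟩
  have h1 := hN _ ((le_max_left _ _).trans hn)
  have hn100 : (100 : ℝ) ≤ Fintype.card V := by
    exact_mod_cast (le_max_right _ _).trans hn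
  have h2 := unmatched G
  rw [edges_card] at h2
  set n := Fintype.card V with hnn
  set μ := matchingNumber G Finset.univ with hμ
  have hμn : (33 / 100 : ℝ) * n ≤ μ := by
    by_contra hcon
    push Not at hcon
    have h3 : 2 * μ + 1 ≤ n := by
      have : (2 * (μ : ℝ) + 1) ≤ n := by linarith
      exact_mod_cast this
    have h4 : (((n - 2 * μ) * (n - 2 * μ - 1) : ℕ) : ℝ) = ((n : ℝ) - 2 * μ) * (n - 2 * μ - 1) := by
      rw [Nat.cast_mul, Nat.cast_sub (by omega : 1 ≤ n - 2 * μ), Nat.cast_sub (by omega)]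
      push_cast
      ring
    have h5 : (((n - 2 * μ) * (n - 2 * μ - 1) : ℕ) : ℝ) ≤ 2 * (Gᶜ.edgeSet.ncard : ℝ) := by
      exact_mod_cast h2
    rw [h4] at h5
    have h6 : (34 / 100 : ℝ) * n ≤ (n : ℝ) - 2 * μ := by linarith
    have h7 : (34 / 100 : ℝ) * n * (34 / 100 * n - 1) ≤ ((n : ℝ) - 2 * μ) * (n - 2 * μ - 1) := by
      apply mul_le_mul h6 (by linarith) (by linarith) (by linarith)
    nlinarith
  have h8 : ((33 / 100 : ℝ) * n) ^ 2 ≤ (μ : ℝ) ^ 2 := by
    apply pow_le_pow_left₀ (by positivity) hμn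
  nlinarith

end OrientedForcing
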