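import Pool.Agent.OrientedForcing.DenseReal

/-!
# Graphs without sparse pairs of large sets

A chronological list of `m` forces contains two disjoint sets `A` (forcing vertices of the first
half) and `B` (vertices coloured in the second half) such that all arcs between `A` and `B` are
determined by the list.
-/

namespace OrientedForcing

open Classical

variable {V : Type} [Fintype V]

/-- The number of edges between the disjoint sets `A` and `B`. -/
noncomputable def crossEdges (G : SimpleGraph V) (A B : Finset V) : ℕ :=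
  ((A ×ˢ B).filter (fun q => G.Adj q.1 q.2)).card

lemma exists_pair {τ : V → ℕ} {p : V → V} {k : ℕ} (hf : ∀ w, τ w ≠ 0 → τ (p w) < τ w)
    (hfi : ∀ u, (Finset.univ.filter (fun w => τ w ≠ 0 ∧ p w = u)).card ≤ k) (m : ℕ)
    (hm : m ≤ (Finset.univ.filter (fun w => τ w ≠ 0)).card) :
    ∃ A B : Finset V, Disjoint A B ∧ m ≤ 2 * k * A.card ∧ m ≤ 2 * B.card ∧
      ∀ a ∈ A, ∀ b ∈ B, s(a, b) ∈ det τ p := by
  have hex : ∃ θ, m ≤ 2 * (Finset.univ.filter (fun w => τ w ≠ 0 ∧ τ w ≤ θ)).card := by
    refine ⟨Finset.univ.sup τ, ?_⟩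
    have : Finset.univ.filter (fun w => τ w ≠ 0 ∧ τ w ≤ Finset.univ.sup τ) =
        Finset.univ.filter (fun w => τ w ≠ 0) := by
      ext w
      simp only [Finset.mem_filter, Finset.mem_univ, true_and, and_iff_left_iff_imp]
      intro _
      exact Finset.le_sup (f := τ) (Finset.mem_univ w)
    rw [this]
    omega
  set θ := Nat.find hex with hθ
  have hθ1 : m ≤ 2 * (Finset.univ.filter (fun w => τ w ≠ 0 ∧ τ w ≤ θ)).card := Nat.find_spec hex
  set L := Finset.univ.filter (fun w => τ w ≠ 0 ∧ τ w ≤ θ) with hL
  set B := Finset.univ.filter (fun x => τ x ≠ 0 ∧ θ ≤ τ x) with hB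
  refine ⟨L.image p, B, ?_, ?_, ?_, ?_⟩
  · rw [Finset.disjoint_left]
    intro u hu huB
    rw [Finset.mem_image] at hu
    obtain ⟨w, hw, rfl⟩ := hu
    rw [hL, Finset.mem_filter] at hw
    rw [hB, Finset.mem_filter] at huB
    have := hf w hw.2.1
    omega
  · have h1 : L.card ≤ k * (L.image p).card := by
      apply Finset.card_le_mul_card_image
      intro u _
      refine (Finset.card_le_card ?_).trans (hfi u)
      intro w hw
      rw [Finset.mem_filter, hL, Finset.mem_filter] at hw
      rw [Finset.mem_filter]
      exact ⟨Finset.mem_univ _, hw.1.2.1, hw.2⟩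
    calc m ≤ 2 * L.card := hθ1
      _ ≤ 2 * (k * (L.image p).card) := by gcongr
      _ = 2 * k * (L.image p).card := by ring
  · rcases Nat.eq_zero_or_pos θ with h0 | hpos
    · have : L.card = 0 := by
        rw [Finset.card_eq_zero, hL, Finset.filter_eq_empty_iff]
        rintro w _ ⟨h1, h2⟩
        omega
      omega
    · have hlt : ¬ m ≤ 2 * (Finset.univ.filter (fun w => τ w ≠ 0 ∧ τ w ≤ θ - 1)).card :=
        Nat.find_min hex (by omega)
      have hsub : Finset.univ.filter (fun w => τ w ≠ 0) ⊆
          (Finset.univ.filter (fun w => τ w ≠ 0 ∧ τ w ≤ θ - 1)) ∪ B := by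
        intro w hw
        rw [Finset.mem_filter] at hw
        rw [Finset.mem_union, Finset.mem_filter, hB, Finset.mem_filter]
        rcases le_or_gt θ (τ w) with h | h
        · exact Or.inr ⟨Finset.mem_univ _, hw.2, h⟩
        · exact Or.inl ⟨Finset.mem_univ _, hw.2, by omega⟩
      have h2 := (Finset.card_le_card hsub).trans (Finset.card_union_le _ _)
      omega
  · intro u hu x hx
    rw [Finset.mem_image] at hu
    obtain ⟨w, hw, rfl⟩ := hu
    rw [hL, Finset.mem_filter] at hw
    rw [hB, Finset.mem_filter] at hx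
    rw [det, Finset.mem_image]
    refine ⟨(w, x), ?_, rfl⟩
    simp only [pairs, Finset.mem_filter, Finset.mem_univ, true_and]
    exact ⟨hw.2.1, hw.2.2.trans hx.2.2⟩

lemma compat_card' {G : SimpleGraph V} {k s d : ℕ}
    (hG : ∀ A B : Finset V, Disjoint A B → Fintype.card V - s ≤ 2 * k * A.card →
      Fintype.card V - s ≤ 2 * B.card → d ≤ crossEdges G A B)
    (c : (V → Fin (Fintype.card V)) × (V → V)) :
    (((edges G).powerset).filter (fun b => Compat G k s b c)).card * 2 ^ d ≤
      2 ^ (edges G).card := by
  set B := ((edges G).powerset).filter (fun b => Compat G k s b c) with hB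
  rcases B.eq_empty_or_nonempty with hemp | ⟨b₀, hb₀⟩
  · rw [hemp]; simp
  · set τ : V → ℕ := fun w => (c.1 w : ℕ) with hτ
    set Dt := det τ c.2 with hDt
    have hb₀' := (Finset.mem_filter.mp hb₀).2
    obtain ⟨S, hSs, hC⟩ := hb₀'
    have hfilter : Finset.univ.filter (fun w => τ w ≠ 0) = Finset.univ \ S := by
      ext w
      have := hC.zero w
      simp only [Finset.mem_filter, Finset.mem_univ, true_and, Finset.mem_sdiff]
      exact not_congr this
    have hm : Fintype.card V - s ≤ (Finset.univ.filter (fun w => τ w ≠ 0)).card := by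
      rw [hfilter, Finset.card_univ_sdiff]
      omega
    obtain ⟨A', B', hdisj, hA', hB', hdet⟩ :=
      exists_pair (fun w hw => (hC.force w hw).1) hC.fiber _ hm
    have h3 : d ≤ (edges G ∩ Dt).card := by
      refine (hG A' B' hdisj hA' hB').trans ?_
      apply Finset.card_le_card_of_injOn (fun q => s(q.1, q.2))
      · rintro ⟨a, b⟩ hq
        have hq' : (a ∈ A' ∧ b ∈ B') ∧ G.Adj a b := by
          simpa using hq
        have hm1 : s(a, b) ∈ edges G := by
          simp only [edges, Finset.mem_filter, Finset.mem_univ, true_and,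
            SimpleGraph.mem_edgeSet]
          exact hq'.2
        exact Finset.mem_coe.mpr (Finset.mem_inter.mpr ⟨hm1, hdet a hq'.1.1 b hq'.1.2⟩)
      · rintro ⟨a, b⟩ hq ⟨a', b'⟩ hq' heq
        have h1 : (a ∈ A' ∧ b ∈ B') ∧ G.Adj a b := by simpa using hq
        have h2 : (a' ∈ A' ∧ b' ∈ B') ∧ G.Adj a' b' := by simpa using hq'
        have heq' : s(a, b) = s(a', b') := heq
        rw [Sym2.eq_iff] at heq'
        rcases heq' with ⟨rfl, rfl⟩ | ⟨rfl, rfl⟩
        · rfl
        · exact absurd h2.1.2 (Finset.disjoint_left.mp hdisj h1.1.1)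
    have h5 : B.card ≤ ((edges G \ Dt).powerset).card := by
      apply Finset.card_le_card_of_injOn (fun b => b \ Dt)
      · intro b hb
        have hb' := (Finset.mem_filter.mp hb).1
        rw [Finset.mem_powerset] at hb'
        simp only [Finset.coe_powerset, Set.mem_preimage, Set.mem_powerset_iff, Finset.coe_subset]
        exact Finset.sdiff_subset_sdiff hb' subset_rfl
      · intro b hb b' hb' heq
        have h6 := Finset.mem_filter.mp hb
        have h7 := Finset.mem_filter.mp hb'
        have heq' : b \ Dt = b' \ Dt := heq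
        ext z
        by_cases hz : z ∈ Dt
        · by_cases hzE : z ∈ G.edgeSet
          · exact compat_agree h6.2 h7.2 hz hzE
          · have g1 : z ∉ b := fun h => hzE (by
              have := (Finset.mem_powerset.mp h6.1) h
              simpa [edges] using this)
            have g2 : z ∉ b' := fun h => hzE (by
              have := (Finset.mem_powerset.mp h7.1) h
              simpa [edges] using this)
            simp [g1, g2]
        · have := Finset.ext_iff.mp heq' z
          simpa [Finset.mem_sdiff, hz] using this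
    rw [Finset.card_powerset] at h5
    have h4 := Finset.card_sdiff_add_card_inter (edges G) Dt
    calc B.card * 2 ^ d ≤ 2 ^ (edges G \ Dt).card * 2 ^ (edges G ∩ Dt).card := by
          gcongr
          norm_num
      _ = 2 ^ ((edges G \ Dt).card + (edges G ∩ Dt).card) := by rw [pow_add]
      _ = 2 ^ (edges G).card := by rw [h4]

/-- **Counting bound for graphs without sparse pairs.** -/
theorem counting' [Nonempty V] (G : SimpleGraph V) {k s d : ℕ}
    (hG : ∀ A B : Finset V, Disjoint A B → Fintype.card V - s ≤ 2 * k * A.card →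
      Fintype.card V - s ≤ 2 * B.card → d ≤ crossEdges G A B)
    (h : Fintype.card V ^ (2 * Fintype.card V) < 2 ^ d) :
    s + 1 ≤ MOF G k := by
  by_contra hcon
  have hall : ∀ b ∈ (edges G).powerset, ∃ c : (V → Fin (Fintype.card V)) × (V → V),
      Compat G k s b c := by
    intro b _
    by_contra hno
    apply hcon
    apply le_MOF (orient_isOrientation G b)
    intro S hS
    by_contra hlt
    apply hno
    have hne : S.Nonempty := by
      rw [Finset.nonempty_iff_ne_empty]
      rintro rfl
      obtain ⟨i, hi⟩ := hS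
      have hemp : ∀ j, (step (orient G b) k)^[j] ∅ = ∅ := by
        intro j
        induction j with
        | zero => rfl
        | succ j ih =>
          rw [Function.iterate_succ_apply', ih]
          simp [step]
      rw [hemp i] at hi
      obtain ⟨v⟩ := ‹Nonempty V›
      have := Finset.mem_univ v
      rw [← hi] at this
      simp at this
    obtain ⟨τ, p, hC⟩ := exists_small_cert hS hne
    exact ⟨(τ, p), S, by omega, hC⟩
  have hcover : (edges G).powerset ⊆
      (Finset.univ : Finset ((V → Fin (Fintype.card V)) × (V → V))).biUnion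
        (fun c => ((edges G).powerset).filter (fun b => Compat G k s b c)) := by
    intro b hb
    obtain ⟨c, hc⟩ := hall b hb
    rw [Finset.mem_biUnion]
    exact ⟨c, Finset.mem_univ _, Finset.mem_filter.mpr ⟨hb, hc⟩⟩
  have h1 : 2 ^ (edges G).card ≤ ∑ c : (V → Fin (Fintype.card V)) × (V → V),
      (((edges G).powerset).filter (fun b => Compat G k s b c)).card := by
    rw [← Finset.card_powerset]
    exact (Finset.card_le_card hcover).trans Finset.card_biUnion_le
  have h2 : 2 ^ (edges G).card * 2 ^ d ≤
      2 ^ (edges G).card * (Fintype.card V ^ (2 * Fintype.card V)) := by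
    calc 2 ^ (edges G).card * 2 ^ d
        ≤ (∑ c : (V → Fin (Fintype.card V)) × (V → V),
          (((edges G).powerset).filter (fun b => Compat G k s b c)).card) * 2 ^ d := by gcongr
      _ = ∑ c : (V → Fin (Fintype.card V)) × (V → V),
          (((edges G).powerset).filter (fun b => Compat G k s b c)).card * 2 ^ d :=
          Finset.sum_mul _ _ _
      _ ≤ ∑ _c : (V → Fin (Fintype.card V)) × (V → V), 2 ^ (edges G).card :=
          Finset.sum_le_sum (fun c _ => compat_card' hG c)
      _ = (Fintype.card V ^ (2 * Fintype.card V)) * 2 ^ (edges G).card := by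
          rw [Finset.sum_const, smul_eq_mul, Finset.card_univ, Fintype.card_prod,
            Fintype.card_fun, Fintype.card_fun, Fintype.card_fin, ← pow_add]
          congr 2
          ring
      _ = _ := mul_comm _ _
  have h4 := Nat.le_of_mul_le_mul_left h2 (by positivity)
  omega

theorem counting_real' [Nonempty V] (G : SimpleGraph V) {k s : ℕ}
    (hG : ∀ A B : Finset V, Disjoint A B → Fintype.card V - s ≤ 2 * k * A.card →
      Fintype.card V - s ≤ 2 * B.card →
      2 * Fintype.card V * Real.logb 2 (Fintype.card V) < crossEdges G A B) :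
    s + 1 ≤ MOF G k := by
  set n := Fintype.card V with hn
  have hn0 : 0 < n := Fintype.card_pos
  have hnr : (0 : ℝ) < n := by exact_mod_cast hn0
  have hn1 : (1 : ℝ) ≤ n := by exact_mod_cast hn0
  have hL : 0 ≤ 2 * (n : ℝ) * Real.logb 2 n := by
    have := Real.logb_nonneg (b := 2) (by norm_num) hn1
    positivity
  set d := ⌊2 * (n : ℝ) * Real.logb 2 n⌋₊ + 1 with hd
  apply counting' G (d := d)
  · intro A B hAB hA hB
    have h1 := hG A B hAB hA hB
    rw [hd, Nat.add_one_le_iff, Nat.floor_lt hL]
    exact h1
  · have h1 : (n : ℝ) ^ (2 * n) = (2 : ℝ) ^ (2 * n * Real.logb 2 n : ℝ) := by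
      conv_lhs => rw [← Real.rpow_logb (b := 2) (by norm_num) (by norm_num) hnr]
      rw [← Real.rpow_natCast, ← Real.rpow_mul (by norm_num)]
      congr 1
      push_cast
      ring
    have h2 : ((n ^ (2 * n) : ℕ) : ℝ) < ((2 ^ d : ℕ) : ℝ) := by
      push_cast
      rw [h1, ← Real.rpow_natCast 2 d]
      apply Real.rpow_lt_rpow_of_exponent_lt (by norm_num)
      rw [hd]
      push_cast
      exact Nat.lt_floor_add_one _
    exact_mod_cast h2

/-- If any two disjoint sets with more than `n / (2 (k + 1))` and more than `k n / (2 (k + 1))`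
vertices have more than `2 n log₂ n` edges between them, then `MOF_k(G) ≥ ⌈n / (k + 1)⌉`. -/
theorem no_sparse_pair (G : SimpleGraph V) {k : ℕ} (hk : 1 ≤ k)
    (hG : ∀ A B : Finset V, Disjoint A B →
      (Fintype.card V : ℝ) / (2 * (k + 1)) < A.card →
      k * (Fintype.card V : ℝ) / (2 * (k + 1)) < B.card →
      2 * Fintype.card V * Real.logb 2 (Fintype.card V) < crossEdges G A B) :
    ⌈(Fintype.card V : ℚ) / (k + 1)⌉₊ ≤ MOF G k := by
  rcases isEmpty_or_nonempty V with hV | hV
  · have : Fintype.card V = 0 := Fintype.card_eq_zero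
    rw [this]
    simp
  set n := Fintype.card V with hn
  have hn0 : 0 < n := Fintype.card_pos
  have hk0 : (0 : ℝ) < k := by exact_mod_cast hk
  set c := ⌈(n : ℚ) / (k + 1)⌉₊ with hc
  have hc0 : 0 < c := by
    rw [hc, Nat.ceil_pos]
    positivity
  obtain ⟨s, hs⟩ : ∃ s, c = s + 1 := ⟨c - 1, by omega⟩
  have hslt : (s : ℚ) < (n : ℚ) / (k + 1) := by
    have h1 : s < c := by omega
    rw [hc, Nat.lt_ceil] at h1
    exact h1
  have hsr : (s : ℝ) < (n : ℝ) / (k + 1) := by
    have := (Rat.cast_lt (K := ℝ)).mpr hslt
    push_cast at this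
    exact this
  have hsr' : (s : ℝ) * (k + 1) < n := by
    rwa [lt_div_iff₀ (by positivity)] at hsr
  have hsn : s < n := by
    have h2 : (s : ℝ) < n := by nlinarith [Nat.cast_nonneg (α := ℝ) s]
    exact_mod_cast h2
  have hmr : ((n - s : ℕ) : ℝ) = n - s := by
    rw [Nat.cast_sub hsn.le]
  rw [hs]
  apply counting_real' G
  intro A B hAB hA hB
  have hA' : ((n - s : ℕ) : ℝ) ≤ 2 * k * A.card := by exact_mod_cast hA
  have hB' : ((n - s : ℕ) : ℝ) ≤ 2 * B.card := by exact_mod_cast hB
  rw [hmr] at hA' hB'
  apply hG A B hAB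
  · rw [div_lt_iff₀ (by positivity)]
    have h3 : (k : ℝ) * n < k * (A.card * (2 * (k + 1))) := by nlinarith
    exact lt_of_mul_lt_mul_left h3 hk0.le
  · rw [div_lt_iff₀ (by positivity)]
    nlinarith

/-- If any two disjoint sets of more than `μ(G) / 2` vertices have more than `2 n log₂ n` edges
between them, then `MOF(G) ≥ n - μ(G)`. -/
theorem no_sparse_pair_matching (G : SimpleGraph V)
    (hG : ∀ A B : Finset V, Disjoint A B →
      matchingNumber G Finset.univ < 2 * A.card → matchingNumber G Finset.univ < 2 * B.card →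
      2 * Fintype.card V * Real.logb 2 (Fintype.card V) < crossEdges G A B) :
    (Fintype.card V : ℤ) - matchingNumber G Finset.univ ≤ MOF G 1 := by
  rcases isEmpty_or_nonempty V with hV | hV
  · have : Fintype.card V = 0 := Fintype.card_eq_zero
    rw [this]
    push_cast
    omega
  set n := Fintype.card V with hn
  set μ := matchingNumber G Finset.univ with hμ
  by_cases hlt : n ≤ μ
  · omega
  push Not at hlt
  have key : (n - μ - 1) + 1 ≤ MOF G 1 := by
    apply counting_real' G
    intro A B hAB hA hB
    apply hG A B hAB <;> omega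
  omega

lemma exists_indep (G : SimpleGraph V) :
    ∃ U : Finset V, Fintype.card V - 2 * matchingNumber G Finset.univ ≤ U.card ∧
      ∀ x ∈ U, ∀ y ∈ U, x ≠ y → ¬ G.Adj x y := by
  set μ := matchingNumber G Finset.univ with hμ
  have hbdd : BddAbove {m | ∃ M : Finset (V × V), IsMatchingIn G Finset.univ M ∧ M.card = m} := by
    refine ⟨Fintype.card (V × V), ?_⟩
    rintro b ⟨M', -, rfl⟩
    exact Finset.card_le_univ M'
  have hne : {m | ∃ M : Finset (V × V), IsMatchingIn G Finset.univ M ∧ M.card = m}.Nonempty :=
    ⟨0, ∅, ⟨by simp, by simp⟩, rfl⟩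
  obtain ⟨M, hM, hMc⟩ := Nat.sSup_mem hne hbdd
  have hMc' : M.card = μ := hMc
  set U := (Finset.univ : Finset V) \ (M.image Prod.fst ∪ M.image Prod.snd) with hU
  have hUc : Fintype.card V - 2 * μ ≤ U.card := by
    rw [hU, Finset.card_univ_sdiff]
    have h1 := Finset.card_union_le (M.image Prod.fst) (M.image Prod.snd)
    have h2 : (M.image Prod.fst).card ≤ M.card := Finset.card_image_le
    have h3 : (M.image Prod.snd).card ≤ M.card := Finset.card_image_le
    omega
  have hUn : ∀ x ∈ U, ∀ e ∈ M, x ≠ e.1 ∧ x ≠ e.2 := by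
    intro x hx e he
    rw [hU, Finset.mem_sdiff, Finset.mem_union, not_or] at hx
    refine ⟨fun h => hx.2.1 ?_, fun h => hx.2.2 ?_⟩
    · rw [h]; exact Finset.mem_image_of_mem _ he
    · rw [h]; exact Finset.mem_image_of_mem _ he
  refine ⟨U, hUc, ?_⟩
  intro x hx y hy hxy hadj
  have hnotin : (x, y) ∉ M := fun h => (hUn x hx (x, y) h).1 rfl
  have hM' : IsMatchingIn G Finset.univ (insert (x, y) M) := by
    constructor
    · intro e he
      rcases Finset.mem_insert.mp he with rfl | he
      · exact ⟨hadj, Finset.mem_univ _, Finset.mem_univ _⟩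
      · exact hM.1 e he
    · intro e he e' he' hne'
      rcases Finset.mem_insert.mp he with rfl | he <;>
        rcases Finset.mem_insert.mp he' with rfl | he'
      · exact absurd rfl hne'
      · have a := hUn x hx e' he'
        have b := hUn y hy e' he'
        exact ⟨a.1, a.2, b.1, b.2⟩
      · have a := hUn x hx e he
        have b := hUn y hy e he
        exact ⟨a.1.symm, b.1.symm, a.2.symm, b.2.symm⟩
      · exact hM.2 e he e' he' hne'
  have h1 : (insert (x, y) M).card ≤ μ := le_csSup hbdd ⟨_, hM', rfl⟩
  rw [Finset.card_insert_of_notMem hnotin] at h1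
  omega

/-- If any two disjoint sets of more than `n / 6` vertices have more than `2 n log₂ n` edges
between them, then `MOF(G) ≥ n - μ(G)`. -/
theorem no_sparse_pair_sixth (G : SimpleGraph V)
    (hG : ∀ A B : Finset V, Disjoint A B →
      Fintype.card V < 6 * A.card → Fintype.card V < 6 * B.card →
      2 * Fintype.card V * Real.logb 2 (Fintype.card V) < crossEdges G A B) :
    (Fintype.card V : ℤ) - matchingNumber G Finset.univ ≤ MOF G 1 := by
  rcases isEmpty_or_nonempty V with hV | hV
  · have : Fintype.card V = 0 := Fintype.card_eq_zero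
    rw [this]
    push_cast
    omega
  have hn0 : 0 < Fintype.card V := Fintype.card_pos
  have hn1 : (1 : ℝ) ≤ Fintype.card V := by exact_mod_cast hn0
  have hL : 0 ≤ 2 * (Fintype.card V : ℝ) * Real.logb 2 (Fintype.card V) := by
    have := Real.logb_nonneg (b := 2) (by norm_num) hn1
    positivity
  obtain ⟨U, hU, hind⟩ := exists_indep G
  set n := Fintype.card V with hn
  set μ := matchingNumber G Finset.univ with hμ
  set t := n / 6 + 1 with ht
  have hsmall : n - 2 * μ < 2 * t := by
    by_contra hcon
    push Not at hcon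
    obtain ⟨A, hAU, hAc⟩ := Finset.exists_subset_card_eq (show t ≤ U.card by omega)
    obtain ⟨B, hBU, hBc⟩ := Finset.exists_subset_card_eq (show t ≤ (U \ A).card by
      rw [Finset.card_sdiff_of_subset hAU]; omega)
    have hdisj : Disjoint A B := by
      rw [Finset.disjoint_left]
      intro x hx hxB
      exact (Finset.mem_sdiff.mp (hBU hxB)).2 hx
    have h1 := hG A B hdisj (by omega) (by omega)
    have h2 : crossEdges G A B = 0 := by
      rw [crossEdges, Finset.card_eq_zero, Finset.filter_eq_empty_iff]
      rintro ⟨a, b⟩ hab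
      rw [Finset.mem_product] at hab
      have hbU := (Finset.mem_sdiff.mp (hBU hab.2)).1
      apply hind a (hAU hab.1) b hbU
      rintro rfl
      exact Finset.disjoint_left.mp hdisj hab.1 hab.2
    rw [h2] at h1
    push_cast at h1
    linarith
  apply no_sparse_pair_matching
  intro A B hAB hA hB
  exact hG A B hAB (by omega) (by omega)

end OrientedForcing
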